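import Pool.Agent.SelPole.Step

/-! The quotient of two functions with the same orders in a quadrant, and its logarithm. -/

set_option autoImplicit false

namespace Pool.Agent.SelCR

open Complex Filter Topology Set Metric
open Pool.Agent.SelPole

/-- the open first quadrant -/
def Qd : Set ℂ := {s | 0 < s.re ∧ 0 < s.im}

theorem isOpen_Qd : IsOpen Qd :=
  (isOpen_lt continuous_const continuous_re).inter (isOpen_lt continuous_const continuous_im)

theorem convex_Qd : Convex ℝ Qd :=
  (convex_halfSpace_re_gt 0).inter (convex_halfSpace_im_gt 0)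

theorem Qd_ne_one {s : ℂ} (hs : s ∈ Qd) : s ≠ 1 := by
  rintro rfl
  exact lt_irrefl _ hs.2

/-- a function of the working class is analytic away from `1` -/
theorem analyticAt_of_ne {F : ℂ → ℂ} {c : ℕ → ℂ} (hF : EulerFE F c) {z : ℂ} (hz : z ≠ 1) :
    AnalyticAt ℂ F z := by
  obtain ⟨m, g, hg, hge⟩ := hF.cont
  have h1 : AnalyticAt ℂ (fun s => g s / (s - 1) ^ m) z := by
    refine (hg.analyticAt z).div (by fun_prop) ?_
    exact pow_ne_zero _ (sub_ne_zero.mpr hz)
  refine h1.congr ?_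
  filter_upwards [isOpen_ne.mem_nhds hz] with s hs
  rw [hge s hs]
  have : (s - 1) ^ m ≠ 0 := pow_ne_zero _ (sub_ne_zero.mpr hs)
  field_simp

/-- the quotient of two functions with the same orders in the quadrant -/
theorem exists_quot {R P : ℂ → ℂ} {q p : ℕ → ℂ} (hR : EulerFE R q) (hP : EulerFE P p)
    (ho : ∀ z ∈ Qd, meromorphicOrderAt R z = meromorphicOrderAt P z) :
    ∃ H : ℂ → ℂ, AnalyticOnNhd ℂ H Qd ∧ (∀ z ∈ Qd, H z ≠ 0) ∧ ∀ z ∈ Qd, R z = H z * P z := by
  set f : ℂ → ℂ := fun z => R z / P z with hf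
  have hfm : MeromorphicOn f Qd := fun z _ => (hR.meromorphicAt z).div (hP.meromorphicAt z)
  have hord : ∀ z ∈ Qd, meromorphicOrderAt f z = 0 := by
    intro z hz
    have h1 : meromorphicOrderAt f z = meromorphicOrderAt R z - meromorphicOrderAt P z :=
      meromorphicOrderAt_div (hR.meromorphicAt z) (hP.meromorphicAt z)
    rw [h1, ho z hz]
    obtain ⟨n, hn⟩ := WithTop.ne_top_iff_exists.mp (hP.order_ne_top z)
    rw [← hn, sub_eq_add_neg, ← WithTop.LinearOrderedAddCommGroup.coe_neg, ← WithTop.coe_add]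
    simp
  set H : ℂ → ℂ := toMeromorphicNFOn f Qd with hH
  have hNF := meromorphicNFOn_toMeromorphicNFOn f Qd
  have hHo : ∀ z ∈ Qd, meromorphicOrderAt H z = 0 := fun z hz => by
    rw [hH, meromorphicOrderAt_toMeromorphicNFOn hfm hz, hord z hz]
  have hHan : AnalyticOnNhd ℂ H Qd := fun z hz =>
    ((hNF hz).meromorphicOrderAt_nonneg_iff_analyticAt).1 (by rw [← hH, hHo z hz])
  refine ⟨H, hHan, fun z hz => ((hNF hz).meromorphicOrderAt_eq_zero_iff).1 (hHo z hz), ?_⟩
  intro z hz
  have h1 : H =ᶠ[𝓝[≠] z] f := hfm.toMeromorphicNFOn_eq_self_on_nhdsNE hz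
  have h2 : ∀ᶠ s in 𝓝[≠] z, P s ≠ 0 := by
    obtain ⟨n, u, hn, hu, hu0, hPu⟩ := hP.local_form z
    filter_upwards [hPu, self_mem_nhdsWithin,
      mem_nhdsWithin_of_mem_nhds (hu.continuousAt.eventually_ne hu0)] with s a1 a2 a3
    rw [a1]
    exact mul_ne_zero (zpow_ne_zero _ (sub_ne_zero.mpr a2)) a3
  have h3 : (fun s => R s) =ᶠ[𝓝[≠] z] fun s => H s * P s := by
    filter_upwards [h1, h2] with s a1 a2
    rw [a1, hf]
    simp only
    rw [div_mul_cancel₀ _ a2]
  have h4 : ContinuousAt (fun s => R s) z := (analyticAt_of_ne hR (Qd_ne_one hz)).continuousAt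
  have h5 : ContinuousAt (fun s => H s * P s) z :=
    (hHan z hz).continuousAt.mul (analyticAt_of_ne hP (Qd_ne_one hz)).continuousAt
  have h6 := h4.tendsto.mono_left (nhdsWithin_le_nhds (s := {z}ᶜ))
  have h7 := h5.tendsto.mono_left (nhdsWithin_le_nhds (s := {z}ᶜ))
  exact tendsto_nhds_unique (h6.congr' h3) h7

/-- analytic logarithm of a nonvanishing analytic function on a convex open set -/
theorem exists_log {H : ℂ → ℂ} {U : Set ℂ} (hU : IsOpen U) (hUc : Convex ℝ U) (hne : U.Nonempty)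
    (hH : AnalyticOnNhd ℂ H U) (h0 : ∀ z ∈ U, H z ≠ 0) :
    ∃ f : ℂ → ℂ, AnalyticOnNhd ℂ f U ∧ ∀ z ∈ U, exp (f z) = H z := by
  have hsc : IsSimplyConnected U := by
    have : ContractibleSpace U := hUc.contractibleSpace hne
    exact SimplyConnectedSpace.ofContractible U
  obtain ⟨f, hfc, hf⟩ := Complex.exists_continuousOn_eqOn_exp_comp hsc hU hH.continuousOn
    (by rintro ⟨z, hz, h⟩; exact h0 z hz h)
  refine ⟨f, ?_, fun z hz => hf hz⟩
  intro z hz
  -- near `z`, `f = f z + log (H / H z)`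
  have hfz : exp (f z) = H z := hf hz
  have h1 : Tendsto (fun s => f s - f z) (𝓝 z) (𝓝 0) := by
    have := (hfc.continuousAt (hU.mem_nhds hz)).tendsto.sub_const (f z)
    simpa using this
  have h2 : ∀ᶠ s in 𝓝 z, |(f s - f z).im| < Real.pi := by
    have h3 : Tendsto (fun s => |(f s - f z).im|) (𝓝 z) (𝓝 |(0 : ℂ).im|) :=
      ((Complex.continuous_im.tendsto _).comp h1).abs
    rw [Complex.zero_im, abs_zero] at h3
    exact h3.eventually (gt_mem_nhds Real.pi_pos)
  have h3 : (fun s => f z + Complex.log (H s / H z)) =ᶠ[𝓝 z] f := by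
    filter_upwards [h2, hU.mem_nhds hz] with s a1 a2
    have h4 : H s / H z = exp (f s - f z) := by
      rw [Complex.exp_sub, hfz]
      congr 1
      exact (hf a2).symm
    rw [h4, Complex.log_exp (by have := (abs_lt.1 a1).1; linarith)
      (le_of_lt (by have := (abs_lt.1 a1).2; linarith))]
    ring
  refine AnalyticAt.congr ?_ h3
  refine analyticAt_const.add ?_
  refine AnalyticAt.clog ?_ ?_
  · exact (hH z hz).div analyticAt_const (h0 z hz)
  · rw [div_self (h0 z hz)]
    exact Complex.one_mem_slitPlane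

end Pool.Agent.SelCR
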