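import Pool.Agent.SelCR.QL
import Pool.Agent.SelCR.Log
import Pool.Agent.SelPole.Class

/-! Polynomial growth of the logarithm of the quotient. -/

set_option autoImplicit false

namespace Pool.Agent.SelCR

open Complex Filter Topology Set Metric
open Pool.Agent.SelPole

/-- growth in vertical half-strips -/
def Gr (F : ℂ → ℂ) : Prop := ∃ A C : ℝ, 0 ≤ A ∧ 0 ≤ C ∧
  ∀ s : ℂ, 0 < s.re → s.re < 4 → 1 ≤ s.im → ‖F s‖ ≤ Real.exp (C * s.im ^ A)

theorem Gr.mul {F G : ℂ → ℂ} (hF : Gr F) (hG : Gr G) : Gr (fun s => F s * G s) := by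
  obtain ⟨A, C, hA, hC, h⟩ := hF
  obtain ⟨B, D, hB, hD, h'⟩ := hG
  refine ⟨max A B, C + D, le_max_of_le_left hA, by positivity, fun s h1 h2 h3 => ?_⟩
  rw [norm_mul]
  have h4 : s.im ^ A ≤ s.im ^ (max A B) := Real.rpow_le_rpow_of_exponent_le h3 (le_max_left _ _)
  have h5 : s.im ^ B ≤ s.im ^ (max A B) := Real.rpow_le_rpow_of_exponent_le h3 (le_max_right _ _)
  calc ‖F s‖ * ‖G s‖ ≤ Real.exp (C * s.im ^ A) * Real.exp (D * s.im ^ B) :=
        mul_le_mul (h s h1 h2 h3) (h' s h1 h2 h3) (norm_nonneg _) (Real.exp_pos _).le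
    _ = Real.exp (C * s.im ^ A + D * s.im ^ B) := (Real.exp_add _ _).symm
    _ ≤ _ := by
        apply Real.exp_le_exp.2
        rw [add_mul]
        gcongr

theorem Gr.one : Gr (fun _ => 1) := by
  refine ⟨0, 0, le_rfl, le_rfl, fun s _ _ _ => ?_⟩
  simp

/-- bounds on the line `Re s = 2` -/
theorem line_two {P : ℂ → ℂ} {p : ℕ → ℂ} (hP : EulerFE P p) :
    ∃ c : ℝ, 0 < c ∧ ∀ t : ℝ, c ≤ ‖P (2 + t * I)‖ := by
  have hsub : p - 0 = p := sub_zero p
  have hab : LSeries.abscissaOfAbsConv (p - 0) ≤ ((1 : ℝ) : EReal) := by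
    refine LSeries.abscissaOfAbsConv_le_of_forall_lt_LSeriesSummable (fun y hy => ?_)
    rw [hsub]
    exact hP.summ y (by simpa using hy)
  obtain ⟨C, hC0, hC⟩ := quotient eulerFE_const_one hP le_rfl hab
  rw [hsub] at hC
  have hs2 : LSeriesSummable (unlog p) 2 := unlog_summable hP.one (hP.summ 2 (by simp))
  set B : ℝ := ∑' n, ‖LSeries.term (unlog p) 2 n‖ with hB
  refine ⟨‖C‖ * Real.exp (-B), mul_pos (norm_pos_iff.2 hC0) (Real.exp_pos _), fun t => ?_⟩
  have hne : (2 + t * I : ℂ) ≠ 1 := by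
    intro h
    have := congrArg Complex.re h
    norm_num at this
  rw [hC (2 + t * I) (by norm_num) hne, mul_one, norm_mul, Complex.norm_exp]
  refine mul_le_mul_of_nonneg_left (Real.exp_le_exp.2 ?_) (norm_nonneg _)
  have h1 : ‖LSeries (unlog p) (2 + t * I)‖ ≤ B := by
    have h2 : ∀ n, ‖LSeries.term (unlog p) (2 + t * I) n‖ ≤ ‖LSeries.term (unlog p) 2 n‖ :=
      fun n => LSeries.norm_term_le_of_re_le_re _ (by simp) n
    have hs : Summable (fun n => ‖LSeries.term (unlog p) (2 + t * I) n‖) :=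
      Summable.of_nonneg_of_le (fun n => norm_nonneg _) h2 hs2.norm
    exact (norm_tsum_le_tsum_norm hs).trans (hs.tsum_le_tsum h2 hs2.norm)
  have h3 := (abs_le.1 ((Complex.abs_re_le_norm _).trans h1)).1
  exact h3

/-- On `Re s > 1` the logarithm is the Dirichlet series, up to a constant. -/
theorem log_eq_series {R P H f : ℂ → ℂ} {q p : ℕ → ℂ} (hR : EulerFE R q) (hP : EulerFE P p)
    (hRH : ∀ z ∈ Qd, R z = H z * P z) (hf : AnalyticOnNhd ℂ f Qd)
    (hfe : ∀ z ∈ Qd, exp (f z) = H z) :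
    ∃ c₁ : ℂ, ∀ s : ℂ, 1 < s.re → 0 < s.im → f s = LSeries (unlog (q - p)) s + c₁ := by
  have hab : LSeries.abscissaOfAbsConv (q - p) ≤ ((1 : ℝ) : EReal) := by
    refine LSeries.abscissaOfAbsConv_le_of_forall_lt_LSeriesSummable (fun y hy => ?_)
    exact (hR.summ y (by simpa using hy)).sub (hP.summ y (by simpa using hy))
  obtain ⟨C, hC0, hC⟩ := quotient hP hR le_rfl hab
  set e : ℕ → ℂ := q - p with he
  have he1 : e 1 = 0 := by simp [he, hP.one, hR.one]
  have hab' : LSeries.abscissaOfAbsConv (unlog e) ≤ ((1 : ℝ) : EReal) := by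
    refine LSeries.abscissaOfAbsConv_le_of_forall_lt_LSeriesSummable (fun y hy => ?_)
    exact unlog_summable he1 ((hR.summ y (by simpa using hy)).sub (hP.summ y (by simpa using hy)))
  set l : ℂ → ℂ := LSeries (unlog e) with hl
  set V : Set ℂ := {s | 1 < s.re ∧ 0 < s.im} with hV
  have hVo : IsOpen V :=
    (isOpen_lt continuous_const continuous_re).inter (isOpen_lt continuous_const continuous_im)
  have hVc : IsPreconnected V :=
    ((convex_halfSpace_re_gt 1).inter (convex_halfSpace_im_gt 0)).isPreconnected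
  have hVQ : V ⊆ Qd := fun s hs => ⟨lt_trans one_pos hs.1, hs.2⟩
  have hld : ∀ s ∈ V, DifferentiableAt ℂ l s := by
    intro s hs
    have h1 : LSeries.abscissaOfAbsConv (unlog e) < s.re :=
      lt_of_le_of_lt hab' (by exact_mod_cast hs.1)
    exact (LSeries_hasDerivAt h1).differentiableAt
  have hexp : ∀ s ∈ V, exp (f s - l s) = C := by
    intro s hs
    have h1 := hC s hs.1 (Qd_ne_one (hVQ hs))
    have h2 := hRH s (hVQ hs)
    have h3 : P s ≠ 0 := hP.ne s hs.1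
    rw [h1] at h2
    have h4 : C * exp (l s) = H s := mul_right_cancel₀ h3 h2
    rw [Complex.exp_sub, hfe s (hVQ hs), ← h4]
    field_simp
  have hd : ∀ s ∈ V, HasDerivAt (fun z => f z - l z) 0 s := by
    intro s hs
    have h1 : HasDerivAt (fun z => f z - l z) (deriv f s - deriv l s) s :=
      (hf s (hVQ hs)).differentiableAt.hasDerivAt.sub (hld s hs).hasDerivAt
    have h2 := h1.cexp
    have h3 : (fun z => exp (f z - l z)) =ᶠ[𝓝 s] fun _ => C := by
      filter_upwards [hVo.mem_nhds hs] with z hz using hexp z hz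
    have h4 := (h2.congr_of_eventuallyEq h3.symm).unique (hasDerivAt_const s C)
    have h5 : deriv f s - deriv l s = 0 := by
      rcases mul_eq_zero.1 h4 with h | h
      · exact absurd h (Complex.exp_ne_zero _)
      · exact h
    rw [h5] at h1
    exact h1
  obtain ⟨c₁, hc₁⟩ := hVo.exists_is_const_of_deriv_eq_zero hVc
    (fun s hs => (hd s hs).differentiableAt.differentiableWithinAt) (fun s hs => (hd s hs).deriv)
  refine ⟨c₁, fun s h1 h2 => ?_⟩
  have := hc₁ s ⟨h1, h2⟩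
  linear_combination this

/-- polynomial growth -/
theorem log_growth {R P H f : ℂ → ℂ} {q p : ℕ → ℂ} (hR : EulerFE R q) (hP : EulerFE P p)
    (gR : Gr R) (gP : Gr P) (hH : AnalyticOnNhd ℂ H Qd) (hH0 : ∀ z ∈ Qd, H z ≠ 0)
    (hRH : ∀ z ∈ Qd, R z = H z * P z) (hf : AnalyticOnNhd ℂ f Qd)
    (hfe : ∀ z ∈ Qd, exp (f z) = H z) {σ₁ : ℝ} (h0 : 0 < σ₁) (h2 : σ₁ < 2) :
    ∃ A K : ℝ, 0 ≤ A ∧ 0 ≤ K ∧ ∀ s : ℂ, σ₁ ≤ s.re → s.re ≤ 2 → 3 ≤ s.im →
      ‖f s‖ ≤ K * s.im ^ A := by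
  obtain ⟨c₁, hc₁⟩ := log_eq_series hR hP hRH hf hfe
  obtain ⟨A₁, C₁, hA₁, hC₁, g₁⟩ := gR
  obtain ⟨A₂, C₂, hA₂, hC₂, g₂⟩ := gP
  obtain ⟨d₁, hd₁, b₁⟩ := line_two hR
  obtain ⟨d₂, hd₂, b₂⟩ := line_two hP
  set A : ℝ := max A₁ A₂ with hA
  have hA0 : 0 ≤ A := le_max_of_le_left hA₁
  set C : ℝ := max C₁ C₂ with hC
  have hC0 : 0 ≤ C := le_max_of_le_left hC₁
  set M₀ : ℝ := max 0 (max (-Real.log d₁) (-Real.log d₂)) with hM₀
  have hM₀0 : 0 ≤ M₀ := le_max_left _ _
  -- bound for `f` on the line `Re s = 2`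
  have he1 : (q - p) 1 = 0 := by simp [hP.one, hR.one]
  have hs2 : LSeriesSummable (unlog (q - p)) 2 :=
    unlog_summable he1 ((hR.summ 2 (by simp)).sub (hP.summ 2 (by simp)))
  set B : ℝ := ∑' n, ‖LSeries.term (unlog (q - p)) 2 n‖ with hB
  have hB0 : 0 ≤ B := tsum_nonneg (fun n => norm_nonneg _)
  have hf2 : ∀ t : ℝ, 0 < t → ‖f (2 + t * I)‖ ≤ B + ‖c₁‖ := by
    intro t ht
    rw [hc₁ (2 + t * I) (by norm_num) (by simpa using ht)]
    refine (norm_add_le _ _).trans (add_le_add ?_ le_rfl)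
    have h2 : ∀ n, ‖LSeries.term (unlog (q - p)) (2 + t * I) n‖ ≤
        ‖LSeries.term (unlog (q - p)) 2 n‖ :=
      fun n => LSeries.norm_term_le_of_re_le_re _ (by simp) n
    have hs : Summable (fun n => ‖LSeries.term (unlog (q - p)) (2 + t * I) n‖) :=
      Summable.of_nonneg_of_le (fun n => norm_nonneg _) h2 hs2.norm
    exact (norm_tsum_le_tsum_norm hs).trans (hs.tsum_le_tsum h2 hs2.norm)
  -- radii
  set ρ : ℝ := 2 - σ₁ / 2 with hρ
  set r₁ : ℝ := 2 - 3 * σ₁ / 4 with hr₁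
  set r : ℝ := 2 - σ₁ with hr
  have hρ0 : 0 < ρ := by rw [hρ]; linarith
  have hr₁0 : 0 < r₁ := by rw [hr₁]; linarith
  have hr0 : 0 < r := by rw [hr]; linarith
  have hr₁ρ : r₁ < ρ := by rw [hr₁, hρ]; linarith
  have hrr₁ : r < r₁ := by rw [hr₁, hr]; linarith
  set κ : ℝ := (ρ + r₁) / (ρ - r₁) with hκ
  have hκ0 : 0 ≤ κ := div_nonneg (by linarith) (by linarith)
  set K₁ : ℝ := C * 2 ^ A + M₀ with hK₁
  have hK₁0 : 0 ≤ K₁ := by positivity
  set K₂ : ℝ := 2 * (2 * (6 * K₁ * κ) + 1) * r / (r₁ - r) with hK₂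
  have hK₂0 : 0 ≤ K₂ := div_nonneg (by positivity) (by linarith)
  refine ⟨A, K₂ + (B + ‖c₁‖), hA0, by positivity, ?_⟩
  intro s hs1 hs2' hs3
  set t : ℝ := s.im with ht
  have ht1 : 1 ≤ t := by linarith
  have htA : 1 ≤ t ^ A := Real.one_le_rpow ht1 hA0
  set c : ℂ := 2 + t * I with hc
  set M : ℝ := K₁ * t ^ A with hM
  have hM0 : 0 ≤ M := by positivity
  -- the ball lies in the quadrant
  have hball : ∀ z ∈ closedBall c ρ, 0 < z.re ∧ z.re < 4 ∧ 1 ≤ z.im ∧ z.im ≤ 2 * t := by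
    intro z hz
    rw [mem_closedBall, dist_eq_norm] at hz
    have h3 := (Complex.abs_re_le_norm (z - c)).trans hz
    have h4 := (Complex.abs_im_le_norm (z - c)).trans hz
    have h5 : (z - c).re = z.re - 2 := by simp [hc]
    have h6 : (z - c).im = z.im - t := by simp [hc]
    rw [h5, abs_le] at h3
    rw [h6, abs_le] at h4
    rw [hρ] at h3 h4
    refine ⟨by linarith [h3.1], by linarith [h3.2], by linarith [h4.1], by linarith [h4.2]⟩
  have hbQ : ∀ z ∈ closedBall c ρ, z ∈ Qd := fun z hz =>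
    ⟨(hball z hz).1, lt_of_lt_of_le one_pos (hball z hz).2.2.1⟩
  have hbd : ∀ {F : ℂ → ℂ} {A' C' : ℝ}, 0 ≤ A' → 0 ≤ C' → A' ≤ A → C' ≤ C →
      (∀ s : ℂ, 0 < s.re → s.re < 4 → 1 ≤ s.im → ‖F s‖ ≤ Real.exp (C' * s.im ^ A')) →
      ∀ z ∈ sphere c ρ, ‖F z‖ ≤ Real.exp M := by
    intro F A' C' hA' hC' hAA hCC hF z hz
    obtain ⟨h3, h4, h5, h6⟩ := hball z (sphere_subset_closedBall hz)
    refine (hF z h3 h4 h5).trans (Real.exp_le_exp.2 ?_)
    have h7 : z.im ^ A' ≤ (2 * t) ^ A :=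
      (Real.rpow_le_rpow (by linarith) h6 hA').trans
        (Real.rpow_le_rpow_of_exponent_le (by linarith) hAA)
    rw [Real.mul_rpow (by norm_num) (by linarith)] at h7
    calc C' * z.im ^ A' ≤ C * (2 ^ A * t ^ A) := by
          refine mul_le_mul hCC h7 (by positivity) hC0
      _ ≤ (C * 2 ^ A + M₀) * t ^ A := by
          rw [add_mul]
          have : 0 ≤ M₀ * t ^ A := by positivity
          linarith
      _ = M := rfl
  have hlow : ∀ {d : ℝ}, 0 < d → -Real.log d ≤ M₀ → ∀ {x : ℝ}, d ≤ x → Real.exp (-M) ≤ x := by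
    intro d hd hdM x hx
    refine le_trans ?_ hx
    rw [← Real.le_log_iff_exp_le hd]
    have h3 : M₀ ≤ M := by
      rw [hM, hK₁]
      have h4 : 0 ≤ C * 2 ^ A := by positivity
      nlinarith
    linarith
  have hanR : AnalyticOnNhd ℂ R (closedBall c ρ) := fun z hz =>
    analyticAt_of_ne hR (Qd_ne_one (hbQ z hz))
  have hanP : AnalyticOnNhd ℂ P (closedBall c ρ) := fun z hz =>
    analyticAt_of_ne hP (Qd_ne_one (hbQ z hz))
  have hlb : ∀ w ∈ ball c r₁, |Real.log ‖H w‖| ≤ 6 * M * κ := by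
    intro w hw
    have hwρ : w ∈ ball c ρ := ball_subset_ball hr₁ρ.le hw
    have h3 := log_bound (R := R) (P := P) hρ0 hM0 hanR hanP (fun z hz => hH z (hbQ z hz))
      (fun z hz => hH0 z (hbQ z hz)) (fun z hz => hRH z (hbQ z hz))
      (hbd hA₁ hC₁ (le_max_left _ _) (le_max_left _ _) g₁)
      (hbd hA₂ hC₂ (le_max_right _ _) (le_max_right _ _) g₂)
      (hlow hd₁ ((le_max_left _ _).trans (le_max_right _ _)) (b₁ t))
      (hlow hd₂ ((le_max_right _ _).trans (le_max_right _ _)) (b₂ t)) hwρ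
    refine h3.trans (mul_le_mul_of_nonneg_left ?_ (by positivity))
    have h4 : ‖w - c‖ ≤ r₁ := by
      rw [mem_ball, dist_eq_norm] at hw
      exact hw.le
    rw [hκ]
    apply div_le_div₀ (by linarith) (by linarith) (by linarith) (by linarith)
  have hre : ∀ w ∈ ball c r₁, |(f w).re| ≤ 6 * M * κ := by
    intro w hw
    have hwQ : w ∈ Qd := hbQ w (ball_subset_closedBall (ball_subset_ball hr₁ρ.le hw))
    have h3 : Real.log ‖H w‖ = (f w).re := by
      rw [← hfe w hwQ, Complex.norm_exp, Real.log_exp]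
    rw [← h3]
    exact hlb w hw
  -- Borel-Caratheodory
  set g : ℂ → ℂ := fun z => f (c + z) - f c with hg
  set Mb : ℝ := 2 * (6 * M * κ) + 1 with hMb
  have hMb0 : 0 < Mb := by positivity
  have hgd : DifferentiableOn ℂ g (ball 0 r₁) := by
    intro z hz
    have h3 : c + z ∈ Qd := by
      apply hbQ
      rw [mem_closedBall, dist_eq_norm, add_sub_cancel_left]
      rw [mem_ball, dist_zero_right] at hz
      linarith
    have h4 : DifferentiableAt ℂ (fun z => f (c + z)) z :=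
      (hf _ h3).differentiableAt.comp z (by fun_prop)
    exact (h4.sub_const _).differentiableWithinAt
  have hgm : Set.MapsTo g (ball 0 r₁) {z | z.re ≤ Mb} := by
    intro z hz
    have h3 : c + z ∈ ball c r₁ := by
      rw [mem_ball, dist_eq_norm, add_sub_cancel_left]
      rwa [mem_ball, dist_zero_right] at hz
    have h4 := hre _ h3
    have h5 := hre c (mem_ball_self hr₁0)
    rw [abs_le] at h4 h5
    simp only [hg, mem_ofPred_eq, Complex.sub_re]
    linarith [h4.2, h5.1]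
  have hsw : s - c ∈ ball (0 : ℂ) r₁ := by
    rw [mem_ball, dist_zero_right]
    have h3 : s - c = ((s.re - 2 : ℝ) : ℂ) := by
      apply Complex.ext
      · simp [hc]
      · simp [hc, ht]
    rw [h3, Complex.norm_real, Real.norm_eq_abs, abs_of_nonpos (by linarith)]
    linarith
  have hswr : ‖s - c‖ ≤ r := by
    have h3 : s - c = ((s.re - 2 : ℝ) : ℂ) := by
      apply Complex.ext
      · simp [hc]
      · simp [hc, ht]
    rw [h3, Complex.norm_real, Real.norm_eq_abs, abs_of_nonpos (by linarith)]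
    linarith
  have hbc := Complex.borelCaratheodory_zero hMb0 hgd hgm hr₁0 hsw (by simp [hg])
  have h3 : g (s - c) = f s - f c := by simp [hg]
  rw [h3] at hbc
  have h4 : 2 * Mb * ‖s - c‖ / (r₁ - ‖s - c‖) ≤ 2 * Mb * r / (r₁ - r) := by
    apply div_le_div₀ (by positivity) (by gcongr) (by linarith) (by linarith)
  have h5 : 2 * Mb * r / (r₁ - r) ≤ K₂ * t ^ A := by
    rw [hK₂, div_mul_eq_mul_div]
    apply div_le_div_of_nonneg_right _ (by linarith)
    have h6 : Mb ≤ (2 * (6 * K₁ * κ) + 1) * t ^ A := by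
      have : (2 * (6 * K₁ * κ) + 1) * t ^ A = 2 * (6 * (K₁ * t ^ A) * κ) + t ^ A := by ring
      rw [hMb, hM, this]
      linarith
    calc 2 * Mb * r ≤ 2 * ((2 * (6 * K₁ * κ) + 1) * t ^ A) * r := by gcongr
      _ = _ := by ring
  calc ‖f s‖ = ‖(f s - f c) + f c‖ := by rw [sub_add_cancel]
    _ ≤ ‖f s - f c‖ + ‖f c‖ := norm_add_le _ _
    _ ≤ K₂ * t ^ A + (B + ‖c₁‖) := add_le_add ((hbc.trans h4).trans h5) (hf2 t (by linarith))
    _ ≤ (K₂ + (B + ‖c₁‖)) * t ^ A := by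
        rw [add_mul]
        have : 0 ≤ B + ‖c₁‖ := by positivity
        nlinarith

end Pool.Agent.SelCR
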