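import Pool.Agent.SelCR.Shift
import Pool.Agent.SelCR.Growth

/-! Two functions of the working class with the same zeros off the real axis have the same
coefficients. -/

set_option autoImplicit false

namespace Pool.Agent.SelCR

open Complex Filter Topology Set MeasureTheory
open Pool.Agent.SelPole
open scoped ComplexConjugate

/-- mean values on the line `Re s = σ0` -/
theorem mean_shift {g : ℂ → ℂ} {σ₁ T0 A K : ℝ} (hσ : 0 < σ₁) (hT0 : 1 ≤ T0) (hA : 0 ≤ A)
    (hK : 0 ≤ K) (hg : AnalyticOnNhd ℂ g Qd)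
    (hb : ∀ s : ℂ, σ₁ ≤ s.re → s.re ≤ 2 → T0 ≤ s.im → ‖g s‖ ≤ K * s.im ^ A)
    {a : ℕ → ℂ} (ha : Summable (fun n => ‖a n‖)) (ν : ℕ → ℝ)
    (hser : ∀ t : ℝ, 0 < t → g (2 + t * I) = ∑' n, a n * exp (-((ν n * t : ℝ) : ℂ) * I))
    (μ : ℝ) {σ0 : ℝ} (h1 : σ₁ ≤ σ0) (h2 : σ0 ≤ 2) :
    Tendsto (fun T : ℝ => (1 / T : ℂ) * ∫ t in Ioi T0, g (σ0 + t * I) * exp ((μ * t : ℝ) * I) *
      exp (((t * I) / T) ^ 2)) atTop
      (𝓝 (exp ((μ * (2 - σ0) : ℝ) : ℂ) * (cG * ∑' n, (if ν n = μ then a n else 0)))) := by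
  obtain ⟨C, hC⟩ := shift hσ hT0 hA hK hg hb μ h1 h2
  have hm := mean_series ha ν μ (2 - σ0) (T0 := T0) (by linarith)
  have hJ0 : ∀ T : ℝ, (∫ t in Ioi T0, g (σ0 + t * I) * exp (μ * (σ0 + t * I)) *
      exp (((t * I) / T) ^ 2)) = exp ((μ * σ0 : ℝ) : ℂ) *
      ∫ t in Ioi T0, g (σ0 + t * I) * exp ((μ * t : ℝ) * I) * exp (((t * I) / T) ^ 2) := by
    intro T
    rw [← integral_const_mul]
    congr 1
    funext t
    have : exp ((μ : ℂ) * (σ0 + t * I)) = exp ((μ * σ0 : ℝ) : ℂ) * exp ((μ * t : ℝ) * I) := by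
      rw [← Complex.exp_add]
      congr 1
      push_cast
      ring
    rw [this]
    ring
  have hJ2 : ∀ T : ℝ, (∫ t in Ioi T0, g (2 + t * I) * exp (μ * (2 + t * I)) *
      exp ((((2 - σ0 : ℝ) + t * I) / T) ^ 2)) = exp ((μ * 2 : ℝ) : ℂ) *
      ∫ t in Ioi T0, (∑' n, a n * exp (-((ν n * t : ℝ) : ℂ) * I)) * exp ((μ * t : ℝ) * I) *
        exp ((((2 - σ0 : ℝ) + t * I) / T) ^ 2) := by
    intro T
    rw [← integral_const_mul]
    refine setIntegral_congr_fun measurableSet_Ioi (fun t ht => ?_)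
    have ht0 : 0 < t := by linarith [mem_Ioi.1 ht]
    rw [hser t ht0]
    have : exp ((μ : ℂ) * (2 + t * I)) = exp ((μ * 2 : ℝ) : ℂ) * exp ((μ * t : ℝ) * I) := by
      rw [← Complex.exp_add]
      congr 1
      push_cast
      ring
    rw [this]
    ring
  have hd : Tendsto (fun T : ℝ => (1 / T : ℂ) *
      ((∫ t in Ioi T0, g (σ0 + t * I) * exp (μ * (σ0 + t * I)) * exp (((t * I) / T) ^ 2)) -
        ∫ t in Ioi T0, g (2 + t * I) * exp (μ * (2 + t * I)) *
          exp ((((2 - σ0 : ℝ) + t * I) / T) ^ 2))) atTop (𝓝 0) := by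
    rw [tendsto_zero_iff_norm_tendsto_zero]
    have h3 : Tendsto (fun T : ℝ => (1 / T) * C) atTop (𝓝 (0 * C)) :=
      (tendsto_const_nhds.div_atTop tendsto_id).mul_const C
    rw [zero_mul] at h3
    refine squeeze_zero' (Eventually.of_forall (fun _ => norm_nonneg _)) ?_ h3
    filter_upwards [eventually_ge_atTop 1] with T hT
    rw [norm_mul]
    have h4 : ‖(1 / T : ℂ)‖ = 1 / T := by
      rw [norm_div, norm_one, Complex.norm_real, Real.norm_of_nonneg (by linarith)]
    rw [h4]
    exact mul_le_mul_of_nonneg_left (hC T hT) (by positivity)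
  have h3 := hd.add (hm.const_mul (exp ((μ * 2 : ℝ) : ℂ)))
  rw [zero_add] at h3
  have h4 := h3.const_mul (exp (-((μ * σ0 : ℝ) : ℂ)))
  have h5 : exp (-((μ * σ0 : ℝ) : ℂ)) * (exp ((μ * 2 : ℝ) : ℂ) *
      (cG * ∑' n, (if ν n = μ then a n else 0))) =
      exp ((μ * (2 - σ0) : ℝ) : ℂ) * (cG * ∑' n, (if ν n = μ then a n else 0)) := by
    rw [← mul_assoc, ← Complex.exp_add]
    congr 2
    push_cast
    ring
  rw [h5] at h4
  refine h4.congr (fun T => ?_)
  rw [hJ0, hJ2]
  have h6 : exp (-((μ * σ0 : ℝ) : ℂ)) * exp ((μ * σ0 : ℝ) : ℂ) = 1 := by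
    rw [← Complex.exp_add]; simp
  push_cast
  push_cast at h6
  linear_combination (1 / (T : ℂ) * ∫ t in Ioi T0, g (σ0 + t * I) * exp ((μ * t : ℂ) * I) *
    exp (((t * I) / T) ^ 2)) * h6

/-- the mean value of a function tending to zero -/
theorem mean_small {D : ℝ → ℝ} {T0 : ℝ} (h0 : 0 ≤ T0) (hc : ContinuousOn D (Ici T0))
    (hD : Tendsto D atTop (𝓝 0)) (lam : ℝ) :
    Tendsto (fun T : ℝ => (1 / T : ℂ) * ∫ t in Ioi T0, (D t : ℂ) * exp ((lam * t : ℝ) * I) *
      exp (((t * I) / T) ^ 2)) atTop (𝓝 0) := by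
  obtain ⟨B, hB⟩ : ∃ B : ℝ, ∀ t : ℝ, T0 ≤ t → |D t| ≤ B := by
    obtain ⟨T1, hT1⟩ := eventually_atTop.1 ((hD.abs).eventually
      (gt_mem_nhds (by rw [abs_zero]; exact one_pos)))
    obtain ⟨B, hB⟩ := (isCompact_Icc (a := T0) (b := T1)).exists_bound_of_continuousOn
      (hc.mono Icc_subset_Ici_self)
    refine ⟨max 1 B, fun t ht => ?_⟩
    rcases le_total T1 t with h | h
    · exact (hT1 t h).le.trans (le_max_left _ _)
    · exact (hB t ⟨ht, h⟩).trans (le_max_right _ _)
  have hsub : ∀ T : ℝ, 0 < T → (1 / T : ℂ) * ∫ t in Ioi T0, (D t : ℂ) * exp ((lam * t : ℝ) * I) *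
      exp (((t * I) / T) ^ 2) = ∫ x, (Ioi (T0 / T)).indicator
        (fun x : ℝ => (D (T * x) : ℂ) * exp ((lam * (T * x) : ℝ) * I) *
          ((Real.exp (-x ^ 2) : ℝ) : ℂ)) x := by
    intro T hT
    have h1 := integral_comp_mul_left_Ioi (fun t : ℝ => (D t : ℂ) * exp ((lam * t : ℝ) * I) *
      exp (((t * I) / T) ^ 2)) (T0 / T) hT
    rw [mul_div_cancel₀ _ hT.ne'] at h1
    have h2 : (1 / T : ℂ) * ∫ t in Ioi T0, (D t : ℂ) * exp ((lam * t : ℝ) * I) *
      exp (((t * I) / T) ^ 2) = T⁻¹ • ∫ t in Ioi T0, (D t : ℂ) * exp ((lam * t : ℝ) * I) *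
      exp (((t * I) / T) ^ 2) := by
      rw [Complex.real_smul]
      push_cast
      rw [one_div]
    rw [h2, ← h1, ← integral_indicator measurableSet_Ioi]
    congr 1
    funext x
    by_cases hx : x ∈ Ioi (T0 / T)
    · rw [indicator_of_mem hx, indicator_of_mem hx]
      have h3 : exp (((((T * x : ℝ) : ℂ) * I) / T) ^ 2) = ((Real.exp (-x ^ 2) : ℝ) : ℂ) := by
        have hTC : (T : ℂ) ≠ 0 := by exact_mod_cast hT.ne'
        rw [Complex.ofReal_exp]
        congr 1
        have : (((T * x : ℝ) : ℂ) * I) / T = x * I := by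
          push_cast
          field_simp
        rw [this, mul_pow, Complex.I_sq]
        push_cast
        ring
      rw [h3]
    · rw [indicator_of_notMem hx, indicator_of_notMem hx]
  have hlim : Tendsto (fun T : ℝ => ∫ x, (Ioi (T0 / T)).indicator
        (fun x : ℝ => (D (T * x) : ℂ) * exp ((lam * (T * x) : ℝ) * I) *
          ((Real.exp (-x ^ 2) : ℝ) : ℂ)) x) atTop (𝓝 (∫ _ : ℝ, (0 : ℂ))) := by
    refine tendsto_integral_filter_of_dominated_convergence
      (fun x => |B| * Real.exp (-x ^ 2)) ?_ ?_ (exp_sq_integrable.const_mul _) ?_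
    · filter_upwards [eventually_gt_atTop 0] with T hT
      rw [aestronglyMeasurable_indicator_iff measurableSet_Ioi]
      refine ContinuousOn.aestronglyMeasurable ?_ measurableSet_Ioi
      intro x hx
      have h3 : T0 < T * x := by
        have := mem_Ioi.1 hx
        rw [div_lt_iff₀ hT] at this
        linarith
      have h4 : ContinuousAt D (T * x) := hc.continuousAt (Ici_mem_nhds h3)
      have h5 : ContinuousAt (fun x => D (T * x)) x :=
        ContinuousAt.comp (f := fun x : ℝ => T * x) h4 (by fun_prop)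
      have h6 : ContinuousAt (fun x : ℝ => (D (T * x) : ℂ) * exp ((lam * (T * x) : ℝ) * I) *
          ((Real.exp (-x ^ 2) : ℝ) : ℂ)) x := by
        refine ContinuousAt.mul (ContinuousAt.mul ?_ ?_) ?_
        · exact (Complex.continuous_ofReal.continuousAt).comp h5
        · fun_prop
        · fun_prop
      exact h6.continuousWithinAt
    · filter_upwards [eventually_gt_atTop 0] with T hT
      refine Eventually.of_forall (fun x => ?_)
      by_cases hx : x ∈ Ioi (T0 / T)
      · rw [indicator_of_mem hx, norm_mul, norm_mul, Complex.norm_exp_ofReal_mul_I, mul_one,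
          Complex.norm_real, Complex.norm_real, Real.norm_of_nonneg (Real.exp_pos _).le]
        refine mul_le_mul_of_nonneg_right ?_ (Real.exp_pos _).le
        have h3 : T0 < T * x := by
          have := mem_Ioi.1 hx
          rw [div_lt_iff₀ hT] at this
          linarith
        exact (hB _ h3.le).trans (le_abs_self B)
      · rw [indicator_of_notMem hx, norm_zero]
        positivity
    · refine Eventually.of_forall (fun x => ?_)
      rcases le_or_gt x 0 with hx | hx
      · refine tendsto_const_nhds.congr' ?_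
        filter_upwards [eventually_gt_atTop 0] with T hT
        have h2 : x ∉ Ioi (T0 / T) := by
          rw [mem_Ioi, not_lt]
          exact hx.trans (div_nonneg h0 hT.le)
        rw [indicator_of_notMem h2]
      · have h3 : Tendsto (fun T : ℝ => D (T * x)) atTop (𝓝 0) :=
          hD.comp (tendsto_id.atTop_mul_const hx)
        rw [tendsto_zero_iff_norm_tendsto_zero]
        have h4 : Tendsto (fun T : ℝ => |D (T * x)|) atTop (𝓝 0) := by
          simpa using h3.abs
        refine squeeze_zero (fun _ => norm_nonneg _) (fun T => ?_) h4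
        by_cases hx' : x ∈ Ioi (T0 / T)
        · rw [indicator_of_mem hx', norm_mul, norm_mul, Complex.norm_exp_ofReal_mul_I, mul_one,
            Complex.norm_real, Complex.norm_real, Real.norm_of_nonneg (Real.exp_pos _).le,
            Real.norm_eq_abs]
          refine mul_le_of_le_one_right (abs_nonneg _) ?_
          exact Real.exp_le_one_iff.2 (by nlinarith)
        · rw [indicator_of_notMem hx', norm_zero]
          exact abs_nonneg _
  rw [integral_zero] at hlim
  refine hlim.congr' ?_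
  filter_upwards [eventually_gt_atTop 0] with T hT
  exact (hsub T hT).symm

/-- the norm of the Gaussian weight -/
theorem norm_weight (t T : ℝ) : ‖exp (((t * I) / T : ℂ) ^ 2)‖ = Real.exp (-(t / T) ^ 2) := by
  have h := norm_kernel 0 T (t / T)
  have h1 : (((0 : ℝ) : ℂ) / T + ((t / T : ℝ) : ℂ) * I) = (t * I) / T := by
    push_cast
    ring
  rw [h1] at h
  rw [h]
  congr 1
  simp

/-- the Gaussian weight is real -/
theorem conj_weight (t T : ℝ) : conj (exp (((t * I) / T : ℂ) ^ 2)) = exp (((t * I) / T : ℂ) ^ 2) := by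
  rw [← Complex.exp_conj]
  congr 1
  simp only [map_pow, map_div₀, map_mul, Complex.conj_ofReal, Complex.conj_I]
  ring

/-- integrability on a line -/
theorem int_line {g : ℝ → ℂ} {T0 A K : ℝ} (hT0 : 1 ≤ T0) (hA : 0 ≤ A)
    (hgc : ContinuousOn g (Ioi T0)) (hb : ∀ t : ℝ, T0 < t → ‖g t‖ ≤ K * t ^ A) (lam : ℝ) {T : ℝ}
    (hT : 0 < T) : IntegrableOn (fun t : ℝ => g t * exp ((lam * t : ℝ) * I) *
      exp (((t * I) / T) ^ 2)) (Ioi T0) := by
  refine Integrable.mono' ((integrableOn_rpow_gauss hT hA (by linarith)).const_mul K) ?_ ?_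
  · refine ContinuousOn.aestronglyMeasurable ?_ measurableSet_Ioi
    exact (hgc.mul (by fun_prop)).mul (by fun_prop)
  · filter_upwards [ae_restrict_mem measurableSet_Ioi] with t ht
    rw [norm_mul, norm_mul, Complex.norm_exp_ofReal_mul_I, mul_one, norm_weight, ← mul_assoc]
    exact mul_le_mul_of_nonneg_right (hb t (mem_Ioi.1 ht)) (Real.exp_pos _).le

/-- the difference of the real parts of the logarithm on two symmetric lines -/
theorem re_diff {R P H f : ℂ → ℂ} {q p : ℕ → ℂ} (hR : EulerFE R q) (hP : EulerFE P p)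
    (hRH : ∀ z ∈ Qd, R z = H z * P z) (hf : AnalyticOnNhd ℂ f Qd)
    (hfe : ∀ z ∈ Qd, exp (f z) = H z) {σ : ℝ} (h0 : 0 < σ) (h12 : σ < 1 / 2) {δ : ℝ} (hδ : 0 < δ) :
    Tendsto (fun t : ℝ => ((f (σ + (t + δ : ℝ) * I)).re - (f ((1 - σ : ℝ) + (t + δ : ℝ) * I)).re) -
      ((f (σ + t * I)).re - (f ((1 - σ : ℝ) + t * I)).re)) atTop (𝓝 0) := by
  obtain ⟨DR, κR, feR⟩ := hR.fe
  obtain ⟨DP, κP, feP⟩ := hP.fe
  obtain ⟨XR, XR0, hXR, XRl⟩ := feR σ h0 h12
  obtain ⟨XP, XP0, hXP, XPl⟩ := feP σ h0 h12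
  set w : ℝ → ℝ := fun t => (f (σ + t * I)).re - (f ((1 - σ : ℝ) + t * I)).re with hw
  set D : ℝ := DR - DP with hD
  set κ : ℝ := κR - κP with hκ
  set N : Set ℝ := {t : ℝ | P (((1 - σ : ℝ) : ℂ) + t * I) ≠ 0} with hN
  have hNd : Dense N := dense_nonzero hP (by linarith)
  have hQ1 : ∀ t : ℝ, 0 < t → (σ + t * I : ℂ) ∈ Qd := fun t ht => ⟨by simpa using h0, by simpa using ht⟩
  have hQ2 : ∀ t : ℝ, 0 < t → (((1 - σ : ℝ) : ℂ) + t * I : ℂ) ∈ Qd := fun t ht =>
    ⟨by simp; linarith, by simpa using ht⟩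
  have hlogH : ∀ z ∈ Qd, (f z).re = Real.log ‖H z‖ := by
    intro z hz
    rw [← hfe z hz, Complex.norm_exp, Real.log_exp]
  have hH0 : ∀ z ∈ Qd, H z ≠ 0 := fun z hz => by rw [← hfe z hz]; exact Complex.exp_ne_zero _
  have hid : ∀ᶠ t in atTop, t ∈ N → w t = Real.log (XR t) - Real.log (XP t) := by
    filter_upwards [XR0, hXR, XP0, hXP, eventually_gt_atTop 0] with t h1 h2 h3 h4 h5 h6
    have e1 := hRH _ (hQ1 t h5)
    have e2 := hRH _ (hQ2 t h5)
    rw [e1, e2, norm_mul, norm_mul, h4] at h2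
    have h7 : 0 < ‖P (((1 - σ : ℝ) : ℂ) + t * I)‖ := norm_pos_iff.mpr h6
    have h8 : ‖H (σ + t * I)‖ * XP t = XR t * ‖H (((1 - σ : ℝ) : ℂ) + t * I)‖ := by
      apply mul_right_cancel₀ h7.ne'
      linear_combination h2
    have h9 := congrArg Real.log h8
    rw [Real.log_mul (norm_ne_zero_iff.2 (hH0 _ (hQ1 t h5))) h3.ne',
      Real.log_mul h1.ne' (norm_ne_zero_iff.2 (hH0 _ (hQ2 t h5)))] at h9
    simp only [hw]
    rw [hlogH _ (hQ1 t h5), hlogH _ (hQ2 t h5)]
    linarith
  have hasy : Tendsto (fun t => Real.log (XR t) - Real.log (XP t)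
      - (1 - 2 * σ) * (D * Real.log t + κ)) atTop (𝓝 0) := by
    have := XRl.sub XPl
    rw [sub_zero] at this
    refine this.congr (fun t => ?_)
    rw [hD, hκ]
    ring
  have hwc : ContinuousOn w (Ioi 0) := by
    intro t ht
    have h1 : ContinuousAt (fun t : ℝ => f (σ + t * I)) t :=
      ContinuousAt.comp (f := fun t : ℝ => (σ + t * I : ℂ)) (hf _ (hQ1 t ht)).continuousAt
        (by fun_prop)
    have h2 : ContinuousAt (fun t : ℝ => f (((1 - σ : ℝ) : ℂ) + t * I)) t :=
      ContinuousAt.comp (f := fun t : ℝ => (((1 - σ : ℝ) : ℂ) + t * I : ℂ))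
        (hf _ (hQ2 t ht)).continuousAt (by fun_prop)
    have h3 : ContinuousAt w t :=
      ((Complex.continuous_re.continuousAt).comp h1).sub
        ((Complex.continuous_re.continuousAt).comp h2)
    exact h3.continuousWithinAt
  -- asymptotics for all `t`
  have hall : Tendsto (fun t => w t - (1 - 2 * σ) * (D * Real.log t + κ)) atTop (𝓝 0) := by
    rw [Metric.tendsto_atTop]
    intro ε hε
    have h5 : ∀ᶠ t in atTop, |Real.log (XR t) - Real.log (XP t)
        - (1 - 2 * σ) * (D * Real.log t + κ)| < ε / 2 := by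
      have := hasy.abs
      rw [abs_zero] at this
      exact this.eventually (gt_mem_nhds (by linarith))
    obtain ⟨T, hT⟩ := eventually_atTop.mp ((hid.and h5).and (eventually_gt_atTop 0))
    refine ⟨T + 1, fun t ht => ?_⟩
    have hTt : T < t := by linarith
    have hT0 : 0 < T := (hT T le_rfl).2
    -- the set of good points is closed in `(T, ∞)`
    set v : ℝ → ℝ := fun t => w t - (1 - 2 * σ) * (D * Real.log t + κ) with hv
    have hvc : ContinuousOn v (Ioi T) := by
      refine ContinuousOn.sub (hwc.mono (Ioi_subset_Ioi hT0.le)) ?_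
      refine ContinuousOn.mul continuousOn_const ?_
      refine ContinuousOn.add (ContinuousOn.mul continuousOn_const ?_) continuousOn_const
      exact Real.continuousOn_log.mono (fun x hx => by
        have := mem_Ioi.1 hx
        simp
        linarith)
    have hmem : t ∈ closure (Ioi T ∩ N) := hNd.open_subset_closure_inter isOpen_Ioi hTt
    have hvt : Tendsto v (𝓝[Ioi T ∩ N] t) (𝓝 (v t)) :=
      ((hvc t hTt).mono_left (nhdsWithin_mono _ inter_subset_left))
    have hne : (𝓝[Ioi T ∩ N] t).NeBot := mem_closure_iff_nhdsWithin_neBot.1 hmem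
    have h6 : |v t| ≤ ε / 2 := by
      refine le_of_tendsto hvt.abs ?_
      filter_upwards [self_mem_nhdsWithin] with t' ht'
      have h7 := (hT t' (le_of_lt ht'.1)).1
      simp only [hv]
      rw [h7.1 ht'.2]
      exact h7.2.le
    rw [Real.dist_eq, sub_zero]
    linarith
  -- the difference of the logarithms
  have hlog : Tendsto (fun t : ℝ => Real.log (t + δ) - Real.log t) atTop (𝓝 0) := by
    have h1 : Tendsto (fun t : ℝ => Real.log (1 + δ / t)) atTop (𝓝 (Real.log (1 + 0))) := by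
      have h2 : Tendsto (fun t : ℝ => 1 + δ / t) atTop (𝓝 (1 + 0)) :=
        tendsto_const_nhds.add (tendsto_const_nhds.div_atTop tendsto_id)
      exact (Real.continuousAt_log (by norm_num)).tendsto.comp h2
    rw [add_zero, Real.log_one] at h1
    refine h1.congr' ?_
    filter_upwards [eventually_gt_atTop 0] with t ht
    rw [← Real.log_div (by linarith) ht.ne']
    congr 1
    field_simp
  have h1 : Tendsto (fun t : ℝ => t + δ) atTop atTop := tendsto_atTop_add_const_right _ _ tendsto_id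
  have h2 := ((hall.comp h1).sub hall).add ((hlog.const_mul ((1 - 2 * σ) * D)))
  simp only [sub_zero, mul_zero, add_zero, Function.comp_def] at h2
  refine h2.congr (fun t => ?_)
  simp only [hw]
  ring

/-- **Core theorem.** Two functions of the working class, of finite order, with the same orders in
the open first quadrant have the same coefficients. -/
theorem core_int {R P : ℂ → ℂ} {q p : ℕ → ℂ} (hR : EulerFE R q) (hP : EulerFE P p)
    (gR : Gr R) (gP : Gr P)
    (ho : ∀ z ∈ Qd, meromorphicOrderAt R z = meromorphicOrderAt P z) :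
    ∀ n : ℕ, 2 ≤ n → q n = p n := by
  obtain ⟨H, hH, hH0, hRH⟩ := exists_quot hR hP ho
  obtain ⟨f, hf, hfe⟩ := exists_log isOpen_Qd convex_Qd ⟨1 + I, by simp [Qd]⟩ hH hH0
  obtain ⟨c₁, hc₁⟩ := log_eq_series hR hP hRH hf hfe
  intro m hm
  have hm0 : m ≠ 0 := by omega
  set lam : ℝ := Real.log m with hlam
  have hlam0 : 0 < lam := Real.log_pos (by exact_mod_cast (by omega : 1 < m))
  set δ : ℝ := 1 / lam with hδ
  have hδ0 : 0 < δ := by positivity
  set σ : ℝ := 1 / 4 with hσ
  obtain ⟨A, K, hA, hK, hb⟩ := log_growth hR hP gR gP hH hH0 hRH hf hfe (σ₁ := σ) (by norm_num [hσ])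
    (by norm_num [hσ])
  -- the shifted difference
  set g : ℂ → ℂ := fun s => f (s + δ * I) - f s with hg
  have hshQ : ∀ s ∈ Qd, s + δ * I ∈ Qd := by
    intro s hs
    refine ⟨by simpa using hs.1, ?_⟩
    have := hs.2
    simp
    linarith
  have hgan : AnalyticOnNhd ℂ g Qd := by
    intro s hs
    refine AnalyticAt.sub ?_ (hf s hs)
    exact AnalyticAt.fun_comp (g := f) (hf _ (hshQ s hs)) (by fun_prop)
  have hgb : ∀ s : ℂ, σ ≤ s.re → s.re ≤ 2 → 3 ≤ s.im → ‖g s‖ ≤ (K * (1 + δ) ^ A + K) * s.im ^ A := by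
    intro s h1 h2 h3
    have h4 := hb (s + δ * I) (by simpa using h1) (by simpa using h2) (by simp; linarith)
    have h5 := hb s h1 h2 h3
    have h6 : (s + δ * I).im = s.im + δ := by simp
    rw [h6] at h4
    have h7 : (s.im + δ) ^ A ≤ (1 + δ) ^ A * s.im ^ A := by
      rw [← Real.mul_rpow (by positivity) (by linarith)]
      refine Real.rpow_le_rpow (by linarith) ?_ hA
      nlinarith
    calc ‖g s‖ ≤ ‖f (s + δ * I)‖ + ‖f s‖ := norm_sub_le _ _
      _ ≤ K * ((1 + δ) ^ A * s.im ^ A) + K * s.im ^ A :=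
          add_le_add (h4.trans (mul_le_mul_of_nonneg_left h7 hK)) h5
      _ = _ := by ring
  have hK'0 : 0 ≤ K * (1 + δ) ^ A + K := by positivity
  -- the series on the line `Re s = 2`
  have he1 : (q - p) 1 = 0 := by simp [hP.one, hR.one]
  have hs2 : ∀ t : ℝ, LSeriesSummable (unlog (q - p)) (2 + t * I) := fun t =>
    unlog_summable he1 ((hR.summ _ (by simp)).sub (hP.summ _ (by simp)))
  set a : ℕ → ℂ := fun n => if n = 0 then 0 else
    unlog (q - p) n * (((n : ℝ) ^ (-(2 : ℝ)) : ℝ) : ℂ) * (exp (-((Real.log n * δ : ℝ) : ℂ) * I) - 1)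
    with ha
  set ν : ℕ → ℝ := fun n => Real.log n with hν
  have hterm : ∀ (t : ℝ) (n : ℕ), LSeries.term (unlog (q - p)) (2 + t * I) n =
      if n = 0 then 0 else unlog (q - p) n * (((n : ℝ) ^ (-(2 : ℝ)) : ℝ) : ℂ) *
        exp (-((Real.log n * t : ℝ) : ℂ) * I) := by
    intro t n
    by_cases hn : n = 0
    · simp [hn]
    · rw [LSeries.term_of_ne_zero hn, if_neg hn]
      have hn0 : (n : ℂ) ≠ 0 := by exact_mod_cast hn
      have hn1 : (0 : ℝ) < n := by exact_mod_cast Nat.pos_of_ne_zero hn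
      rw [Complex.cpow_add _ _ hn0, div_eq_mul_inv, mul_inv, mul_assoc]
      congr 2
      · rw [Real.rpow_neg hn1.le, Complex.ofReal_inv, Complex.ofReal_cpow hn1.le,
          Complex.ofReal_natCast]
        norm_num
      · rw [Complex.cpow_def_of_ne_zero hn0, ← Complex.exp_neg, ← Complex.natCast_log]
        congr 1
        push_cast
        ring
  have hser : ∀ t : ℝ, 0 < t → g (2 + t * I) = ∑' n, a n * exp (-((ν n * t : ℝ) : ℂ) * I) := by
    intro t ht
    simp only [hg]
    have e1 : (2 + t * I + δ * I : ℂ) = 2 + ((t + δ : ℝ) : ℂ) * I := by push_cast; ring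
    rw [e1, hc₁ _ (by norm_num) (by simp; linarith), hc₁ _ (by norm_num) (by simpa using ht)]
    have e2 : LSeries (unlog (q - p)) (2 + ((t + δ : ℝ) : ℂ) * I) + c₁ -
        (LSeries (unlog (q - p)) (2 + t * I) + c₁) =
        ∑' n, (LSeries.term (unlog (q - p)) (2 + ((t + δ : ℝ) : ℂ) * I) n -
          LSeries.term (unlog (q - p)) (2 + t * I) n) := by
      rw [Summable.tsum_sub (hs2 _) (hs2 _)]
      simp only [LSeries]
      ring
    rw [e2]
    refine tsum_congr (fun n => ?_)
    rw [hterm, hterm]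
    simp only [ha, hν]
    by_cases hn : n = 0
    · simp [hn]
    · rw [if_neg hn, if_neg hn, if_neg hn]
      have e3 : exp (-((Real.log n * (t + δ) : ℝ) : ℂ) * I) =
          exp (-((Real.log n * δ : ℝ) : ℂ) * I) * exp (-((Real.log n * t : ℝ) : ℂ) * I) := by
        rw [← Complex.exp_add]
        congr 1
        push_cast
        ring
      rw [e3]
      ring
  have hasum : Summable (fun n => ‖a n‖) := by
    have h1 : Summable (fun n => 2 * ‖LSeries.term (unlog (q - p)) (2 + (0 : ℝ) * I) n‖) :=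
      (hs2 0).norm.mul_left 2
    refine Summable.of_nonneg_of_le (fun n => norm_nonneg _) (fun n => ?_) h1
    rw [hterm]
    simp only [ha]
    by_cases hn : n = 0
    · simp [hn]
    · rw [if_neg hn, if_neg hn, norm_mul, norm_mul (unlog (q - p) n * _), ← Complex.ofReal_neg,
        ← Complex.ofReal_neg, Complex.norm_exp_ofReal_mul_I, mul_one, mul_comm]
      refine mul_le_mul_of_nonneg_right ?_ (norm_nonneg _)
      refine (norm_sub_le _ _).trans ?_
      rw [Complex.norm_exp_ofReal_mul_I, norm_one]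
      norm_num
  -- the two frequencies
  have hsum1 : ∑' n, (if ν n = lam then a n else 0) = a m := by
    rw [tsum_eq_single m]
    · rw [if_pos (by simp only [hν, hlam])]
    · intro n hn
      rw [if_neg]
      intro h
      simp only [hν, hlam] at h
      rcases Nat.eq_zero_or_pos n with h0 | h0
      · rw [h0, Nat.cast_zero, Real.log_zero] at h
        exact absurd h hlam0.ne
      · have h1 := Real.log_injOn_pos (show (n : ℝ) ∈ Ioi 0 by simpa using h0)
          (show (m : ℝ) ∈ Ioi 0 by simpa using Nat.pos_of_ne_zero hm0) h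
        exact hn (by exact_mod_cast h1)
  have hsum2 : ∑' n, (if ν n = -lam then a n else 0) = 0 := by
    have : (fun n => if ν n = -lam then a n else 0) = fun _ => 0 := by
      funext n
      rw [if_neg]
      intro h
      have h1 : 0 ≤ ν n := by
        simp only [hν]
        exact Real.log_natCast_nonneg n
      linarith
    rw [this, tsum_zero]
  -- the mean of the real part
  have hre : ∀ σ0 : ℝ, σ ≤ σ0 → σ0 ≤ 2 → Tendsto (fun T : ℝ => (1 / T : ℂ) *
      ∫ t in Ioi (3 : ℝ), ((2 * (g (σ0 + t * I)).re : ℝ) : ℂ) * exp ((lam * t : ℝ) * I) *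
        exp (((t * I) / T) ^ 2)) atTop (𝓝 (exp ((lam * (2 - σ0) : ℝ) : ℂ) * (cG * a m))) := by
    intro σ0 h1 h2
    have m1 := mean_shift (T0 := 3) (by norm_num [hσ]) (by norm_num) hA hK'0 hgan hgb hasum ν hser
      lam h1 h2
    have m2 := mean_shift (T0 := 3) (by norm_num [hσ]) (by norm_num) hA hK'0 hgan hgb hasum ν hser
      (-lam) h1 h2
    rw [hsum1] at m1
    rw [hsum2, mul_zero, mul_zero] at m2
    have m3 := (Complex.continuous_conj.tendsto _).comp m2
    rw [map_zero] at m3
    have m4 := m1.add m3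
    rw [add_zero] at m4
    refine m4.congr' ?_
    filter_upwards [eventually_gt_atTop 0] with T hT
    have hc : ContinuousOn (fun t : ℝ => g (σ0 + t * I)) (Ioi 3) := by
      intro t ht
      have ht' := mem_Ioi.1 ht
      have hQ : (σ0 + t * I : ℂ) ∈ Qd := ⟨by
        have : (0 : ℝ) < σ0 := by rw [hσ] at h1; linarith
        simpa using this, by
        have : (0 : ℝ) < t := by linarith
        simpa using this⟩
      have h3 : ContinuousAt (fun t : ℝ => g (σ0 + t * I)) t :=
        ContinuousAt.comp (f := fun t : ℝ => (σ0 + t * I : ℂ)) (hgan _ hQ).continuousAt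
          (by fun_prop)
      exact h3.continuousWithinAt
    have hbd : ∀ t : ℝ, 3 < t → ‖g (σ0 + t * I)‖ ≤ (K * (1 + δ) ^ A + K) * t ^ A := by
      intro t ht
      have := hgb (σ0 + t * I) (by simpa using h1) (by simpa using h2) (by simpa using ht.le)
      simpa using this
    have i1 := int_line (T0 := 3) (by norm_num) hA hc hbd lam hT
    have i2 := int_line (T0 := 3) (g := fun t : ℝ => conj (g (σ0 + t * I))) (by norm_num) hA
      (Complex.continuous_conj.comp_continuousOn hc)
      (fun t ht => by rw [Complex.norm_conj]; exact hbd t ht) lam hT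
    simp only [Function.comp_apply, map_mul, map_div₀, map_one, Complex.conj_ofReal]
    rw [← integral_conj, ← mul_add]
    congr 1
    have e1 : (fun t : ℝ => conj (g (σ0 + t * I) * exp ((-lam * t : ℝ) * I) *
        exp (((t * I) / T) ^ 2))) = fun t : ℝ => conj (g (σ0 + t * I)) * exp ((lam * t : ℝ) * I) *
        exp (((t * I) / T) ^ 2) := by
      funext t
      rw [map_mul, map_mul, conj_weight, ← Complex.exp_conj (((-lam * t : ℝ) : ℂ) * I)]
      congr 3
      simp only [map_mul, Complex.conj_ofReal, Complex.conj_I]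
      push_cast
      try ring_nf
    rw [e1, ← integral_add i1 i2]
    congr 1
    funext t
    have e2 : ((2 * (g (σ0 + t * I)).re : ℝ) : ℂ) = g (σ0 + t * I) + conj (g (σ0 + t * I)) := by
      rw [Complex.add_conj]
    rw [e2]
    ring
  have hσ12 : σ < 1 / 2 := by norm_num [hσ]
  have hσpos : 0 < σ := by norm_num [hσ]
  have hσ1 : 0 < 1 - σ := by norm_num [hσ]
  have l1 := hre σ le_rfl (by norm_num [hσ])
  have l2 := hre (1 - σ) (by norm_num [hσ]) (by norm_num [hσ])
  -- the difference tends to zero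
  set Df : ℝ → ℝ := fun t => 2 * (g (σ + t * I)).re - 2 * (g ((1 - σ : ℝ) + t * I)).re with hDf
  have hQ : ∀ {x t : ℝ}, 0 < x → 0 < t → (x + t * I : ℂ) ∈ Qd := fun hx ht =>
    ⟨by simpa using hx, by simpa using ht⟩
  have hcl : ∀ {x : ℝ}, 0 < x → ContinuousOn (fun t : ℝ => (2 * (g (x + t * I)).re : ℝ)) (Ici 3) := by
    intro x hx t ht
    have ht' := mem_Ici.1 ht
    have h3 : ContinuousAt (fun t : ℝ => g (x + t * I)) t :=
      ContinuousAt.comp (f := fun t : ℝ => (x + t * I : ℂ))
        (hgan _ (hQ hx (by linarith))).continuousAt (by fun_prop)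
    have h4 : ContinuousAt (fun t : ℝ => (2 * (g (x + t * I)).re : ℝ)) t :=
      continuousAt_const.mul ((Complex.continuous_re.continuousAt).comp h3)
    exact h4.continuousWithinAt
  have hDfc : ContinuousOn Df (Ici 3) := (hcl hσpos).sub (hcl hσ1)
  have hDf0 : Tendsto Df atTop (𝓝 0) := by
    have h1 := (re_diff hR hP hRH hf hfe hσpos hσ12 hδ0).const_mul 2
    rw [mul_zero] at h1
    refine h1.congr (fun t => ?_)
    simp only [hDf, hg, Complex.sub_re]
    have e1 : ∀ x : ℂ, x + t * I + δ * I = x + ((t + δ : ℝ) : ℂ) * I := by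
      intro x; push_cast; ring
    rw [e1, e1]
    ring
  have l3 := mean_small (T0 := 3) (by norm_num) hDfc hDf0 lam
  have l4 := l1.sub l2
  have hbr : ∀ {x : ℝ}, σ ≤ x → x ≤ 2 → ∀ t : ℝ, 3 < t →
      ‖((2 * (g (x + t * I)).re : ℝ) : ℂ)‖ ≤ (2 * (K * (1 + δ) ^ A + K)) * t ^ A := by
    intro x h1 h2 t ht
    have h3 := hgb (x + t * I) (by simpa using h1) (by simpa using h2) (by simpa using ht.le)
    have h4 : (x + t * I : ℂ).im = t := by simp
    rw [h4] at h3
    rw [Complex.norm_real, norm_mul, Real.norm_of_nonneg (by norm_num : (0 : ℝ) ≤ 2),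
      Real.norm_eq_abs]
    have h5 := (Complex.abs_re_le_norm (g (x + t * I))).trans h3
    linarith
  have l5 := tendsto_nhds_unique (l4.congr' (f₂ := fun T : ℝ => (1 / T : ℂ) *
      ∫ t in Ioi (3 : ℝ), (Df t : ℂ) * exp ((lam * t : ℝ) * I) * exp (((t * I) / T) ^ 2)) (by
    filter_upwards [eventually_gt_atTop 0] with T hT
    rw [← mul_sub]
    congr 1
    have i1 := int_line (T0 := 3) (g := fun t : ℝ => ((2 * (g (σ + t * I)).re : ℝ) : ℂ))
      (by norm_num) hA (Complex.continuous_ofReal.comp_continuousOn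
        ((hcl hσpos).mono Ioi_subset_Ici_self)) (hbr le_rfl (by norm_num [hσ])) lam hT
    have i2 := int_line (T0 := 3)
      (g := fun t : ℝ => ((2 * (g ((1 - σ : ℝ) + t * I)).re : ℝ) : ℂ))
      (by norm_num) hA (Complex.continuous_ofReal.comp_continuousOn
        ((hcl hσ1).mono Ioi_subset_Ici_self))
        (hbr (by norm_num [hσ]) (by norm_num [hσ])) lam hT
    rw [← integral_sub i1 i2]
    congr 1
    funext t
    simp only [hDf]
    push_cast
    ring)) l3
  -- conclusion
  have h1 : (exp ((lam * (2 - σ) : ℝ) : ℂ) - exp ((lam * (2 - (1 - σ)) : ℝ) : ℂ)) * (cG * a m) = 0 := by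
    rw [sub_mul]; exact l5
  have h2 : exp ((lam * (2 - σ) : ℝ) : ℂ) - exp ((lam * (2 - (1 - σ)) : ℝ) : ℂ) ≠ 0 := by
    rw [← Complex.ofReal_exp, ← Complex.ofReal_exp, ← Complex.ofReal_sub]
    have h3 : Real.exp (lam * (2 - (1 - σ))) < Real.exp (lam * (2 - σ)) := by
      apply Real.exp_lt_exp.2
      apply mul_lt_mul_of_pos_left _ hlam0
      norm_num [hσ]
    exact_mod_cast (sub_pos.2 h3).ne'
  have h3 : a m = 0 := by
    rcases mul_eq_zero.1 h1 with h | h
    · exact absurd h h2
    · rcases mul_eq_zero.1 h with h | h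
      · exact absurd h cG_ne_zero
      · exact h
  have h4 : exp (-((Real.log m * δ : ℝ) : ℂ) * I) - 1 ≠ 0 := by
    have h5 : Real.log m * δ = 1 := by
      rw [hδ, ← hlam]
      field_simp
    rw [h5, sub_ne_zero]
    intro h
    rw [Complex.exp_eq_one_iff] at h
    obtain ⟨k, hk⟩ := h
    have h6 := congrArg Complex.im hk
    simp at h6
    have h7 : (-1 : ℝ) = k * (2 * Real.pi) := by
      rw [h6]
    have h8 : |(-1 : ℝ)| = |(k : ℝ)| * (2 * Real.pi) := by
      rw [h7, abs_mul, abs_of_pos (by positivity : (0 : ℝ) < 2 * Real.pi)]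
    have h9 : (k : ℝ) ≠ 0 := by
      intro h10
      rw [h10, zero_mul] at h7
      norm_num at h7
    have h10 : (1 : ℝ) ≤ |(k : ℝ)| := by
      have : (1 : ℤ) ≤ |k| := Int.one_le_abs (by exact_mod_cast h9)
      exact_mod_cast this
    have h11 := Real.pi_gt_three
    rw [abs_neg, abs_one] at h8
    nlinarith
  simp only [ha, if_neg hm0] at h3
  have h5 : unlog (q - p) m = 0 := by
    rcases mul_eq_zero.1 h3 with h | h
    · rcases mul_eq_zero.1 h with h | h
      · exact h
      · exfalso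
        have : (0 : ℝ) < (m : ℝ) ^ (-(2 : ℝ)) := by
          have : (0 : ℝ) < m := by exact_mod_cast Nat.pos_of_ne_zero hm0
          positivity
        exact this.ne' (by exact_mod_cast h)
    · exact absurd h h4
  have h6 := logMul_unlog he1 hm0
  rw [LSeries.logMul, h5, mul_zero] at h6
  have h7 : q m - p m = 0 := by simpa using h6.symm
  exact sub_eq_zero.mp h7

end Pool.Agent.SelCR
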