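import Mathlib

/-! Gaussian mean values of almost periodic functions on a half-line. -/

set_option autoImplicit false

namespace Pool.Agent.SelCR

open Complex Filter Topology Set MeasureTheory

/-- half of a Gaussian -/
noncomputable def Gh : ℝ → ℂ := (Ioi (0 : ℝ)).indicator (fun x => ((Real.exp (-x ^ 2) : ℝ) : ℂ))

theorem Gh_norm (x : ℝ) : ‖Gh x‖ ≤ Real.exp (-x ^ 2) := by
  unfold Gh
  by_cases hx : x ∈ Ioi (0 : ℝ)
  · rw [indicator_of_mem hx, Complex.norm_real, Real.norm_of_nonneg (Real.exp_pos _).le]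
  · rw [indicator_of_notMem hx, norm_zero]
    exact (Real.exp_pos _).le

theorem Gh_meas : AEStronglyMeasurable Gh volume := by
  unfold Gh
  refine AEStronglyMeasurable.indicator ?_ measurableSet_Ioi
  exact (by fun_prop : Continuous (fun x : ℝ => ((Real.exp (-x ^ 2) : ℝ) : ℂ))).aestronglyMeasurable

theorem exp_sq_integrable : Integrable (fun x : ℝ => Real.exp (-x ^ 2)) := by
  have h : Integrable (fun x : ℝ => Real.exp (-1 * x ^ 2)) := integrable_exp_neg_mul_sq one_pos
  simpa using h

theorem Gh_integrable : Integrable Gh :=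
  exp_sq_integrable.mono' Gh_meas (Eventually.of_forall Gh_norm)

/-- the constant `√π / 2` -/
noncomputable def cG : ℂ := ∫ x, Gh x

theorem cG_ne_zero : cG ≠ 0 := by
  have h1 : cG = ((√(Real.pi / 1) / 2 : ℝ) : ℂ) := by
    rw [cG]
    unfold Gh
    rw [integral_indicator measurableSet_Ioi, integral_complex_ofReal, ← integral_gaussian_Ioi 1]
    simp
  rw [h1]
  have : (0 : ℝ) < √(Real.pi / 1) / 2 := by positivity
  exact_mod_cast this.ne'

/-- `∫ Gh(x) e^{iλTx} dx` -/
noncomputable def BT (lam T : ℝ) : ℂ := ∫ x, Gh x * exp ((lam * T * x : ℝ) * I)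

theorem BT_zero (T : ℝ) : BT 0 T = cG := by
  simp [BT, cG]

theorem BT_norm (lam T : ℝ) : ‖BT lam T‖ ≤ ∫ x, ‖Gh x‖ := by
  refine (norm_integral_le_integral_norm _).trans (le_of_eq ?_)
  congr 1
  funext x
  rw [norm_mul, Complex.norm_exp_ofReal_mul_I, mul_one]

theorem BT_tendsto {lam : ℝ} (h : lam ≠ 0) : Tendsto (BT lam) atTop (𝓝 0) := by
  have h1 := Real.tendsto_integral_exp_smul_cocompact Gh
  have h2 : Tendsto (fun T : ℝ => -(lam * T) / (2 * Real.pi)) atTop (cocompact ℝ) := by
    rw [cocompact_eq_atBot_atTop]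
    rcases lt_or_gt_of_ne h with h3 | h3
    · refine Tendsto.mono_right ?_ le_sup_right
      have : Tendsto (fun T : ℝ => (-lam / (2 * Real.pi)) * T) atTop atTop :=
        tendsto_id.const_mul_atTop (div_pos (by linarith) (by positivity))
      refine this.congr (fun T => ?_)
      ring
    · refine Tendsto.mono_right ?_ le_sup_left
      have : Tendsto (fun T : ℝ => (-lam / (2 * Real.pi)) * T) atTop atBot :=
        tendsto_id.const_mul_atTop_of_neg (div_neg_of_neg_of_pos (by linarith) (by positivity))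
      refine this.congr (fun T => ?_)
      ring
  refine (h1.comp h2).congr (fun T => ?_)
  simp only [Function.comp_apply, BT]
  congr 1
  funext x
  rw [Circle.smul_def, Real.fourierChar_apply, smul_eq_mul, mul_comm]
  congr 2
  push_cast
  field_simp

theorem norm_kernel (α T x : ℝ) :
    ‖exp ((α / T + x * I) ^ 2)‖ = Real.exp ((α / T) ^ 2 - x ^ 2) := by
  rw [Complex.norm_exp]
  congr 1
  have : ((α / T + x * I : ℂ) ^ 2) = (((α / T) ^ 2 - x ^ 2 : ℝ) : ℂ) + ((2 * (α / T) * x : ℝ) : ℂ) * I := by
    push_cast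
    ring_nf
    rw [Complex.I_sq]
    ring
  rw [this, Complex.add_re, Complex.ofReal_re, Complex.re_ofReal_mul, Complex.I_re, mul_zero,
    add_zero]

/-- the kernels converge in `L^1` -/
theorem Phi_tendsto (α : ℝ) {T0 : ℝ} (h0 : 0 ≤ T0) :
    Tendsto (fun T : ℝ => ∫ x, ‖(Ioi (T0 / T)).indicator
      (fun x : ℝ => exp ((α / T + x * I) ^ 2)) x - Gh x‖) atTop (𝓝 0) := by
  have h1 : Tendsto (fun T : ℝ => ∫ x, ‖(Ioi (T0 / T)).indicator
      (fun x : ℝ => exp ((α / T + x * I) ^ 2)) x - Gh x‖) atTop (𝓝 (∫ _ : ℝ, (0 : ℝ))) := by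
    refine tendsto_integral_filter_of_dominated_convergence
      (fun x => (Real.exp (α ^ 2) + 1) * Real.exp (-x ^ 2)) ?_ ?_ ?_ ?_
    · refine Eventually.of_forall (fun T => ?_)
      refine (AEStronglyMeasurable.sub ?_ Gh_meas).norm
      refine AEStronglyMeasurable.indicator ?_ measurableSet_Ioi
      exact (by fun_prop : Continuous (fun x : ℝ => exp ((α / T + x * I) ^ 2))).aestronglyMeasurable
    · filter_upwards [eventually_ge_atTop 1] with T hT
      refine Eventually.of_forall (fun x => ?_)
      rw [norm_norm]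
      refine (norm_sub_le _ _).trans ?_
      rw [add_mul, one_mul]
      refine add_le_add ?_ (Gh_norm x)
      by_cases hx : x ∈ Ioi (T0 / T)
      · rw [indicator_of_mem hx, norm_kernel, ← Real.exp_add]
        apply Real.exp_le_exp.2
        have : (α / T) ^ 2 ≤ α ^ 2 := by
          rw [div_pow]
          exact div_le_self (by positivity) (by nlinarith)
        linarith
      · rw [indicator_of_notMem hx, norm_zero]
        positivity
    · exact exp_sq_integrable.const_mul _
    · refine Eventually.of_forall (fun x => ?_)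
      rcases le_or_gt x 0 with hx | hx
      · refine tendsto_const_nhds.congr' ?_
        filter_upwards [eventually_gt_atTop 0] with T hT
        have h2 : x ∉ Ioi (T0 / T) := by
          rw [mem_Ioi, not_lt]
          exact hx.trans (div_nonneg h0 hT.le)
        have h3 : x ∉ Ioi (0 : ℝ) := by rw [mem_Ioi, not_lt]; exact hx
        rw [indicator_of_notMem h2, Gh, indicator_of_notMem h3]
        simp
      · have h2 : Tendsto (fun T : ℝ => T0 / T) atTop (𝓝 0) := tendsto_const_nhds.div_atTop tendsto_id
        have h3 : Tendsto (fun T : ℝ => exp (((α : ℂ) / T + x * I) ^ 2)) atTop (𝓝 (Gh x)) := by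
          have h4 : Tendsto (fun T : ℝ => ((α / T : ℝ) : ℂ)) atTop (𝓝 ((0 : ℝ) : ℂ)) :=
            (Complex.continuous_ofReal.tendsto 0).comp (tendsto_const_nhds.div_atTop tendsto_id)
          have h5 : Tendsto (fun T : ℝ => exp ((((α / T : ℝ) : ℂ) + x * I) ^ 2)) atTop
              (𝓝 (exp ((((0 : ℝ) : ℂ) + x * I) ^ 2))) :=
            (Complex.continuous_exp.tendsto _).comp ((h4.add_const _).pow 2)
          have h6 : exp ((((0 : ℝ) : ℂ) + x * I) ^ 2) = Gh x := by
            rw [Gh, indicator_of_mem (show x ∈ Ioi (0 : ℝ) from hx), Complex.ofReal_exp]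
            congr 1
            push_cast
            rw [zero_add, mul_pow, Complex.I_sq]
            ring
          rw [h6] at h5
          refine h5.congr (fun T => ?_)
          push_cast
          rfl
        have h7 : Tendsto (fun T : ℝ => ‖exp (((α : ℂ) / T + x * I) ^ 2) - Gh x‖) atTop (𝓝 0) := by
          have := (h3.sub_const (Gh x)).norm
          simpa using this
        refine h7.congr' ?_
        filter_upwards [h2.eventually (gt_mem_nhds hx)] with T hT
        rw [indicator_of_mem (show x ∈ Ioi (T0 / T) from hT)]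
  simpa using h1

/-- the mean value of an absolutely convergent series against a frequency -/
theorem mean_series {a : ℕ → ℂ} (ha : Summable (fun n => ‖a n‖)) (ν : ℕ → ℝ) (μ α : ℝ) {T0 : ℝ}
    (h0 : 0 ≤ T0) :
    Tendsto (fun T : ℝ => (1 / T : ℂ) * ∫ t in Ioi T0,
      (∑' n, a n * exp (-((ν n * t : ℝ) : ℂ) * I)) * exp ((μ * t : ℝ) * I) *
        exp (((α + t * I) / T) ^ 2)) atTop (𝓝 (cG * ∑' n, (if ν n = μ then a n else 0))) := by
  set S : ℝ → ℂ := fun t => ∑' n, a n * exp (-((ν n * t : ℝ) : ℂ) * I) with hS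
  have hterm : ∀ (n : ℕ) (t : ℝ), ‖a n * exp (-((ν n * t : ℝ) : ℂ) * I)‖ = ‖a n‖ := by
    intro n t
    rw [norm_mul, ← Complex.ofReal_neg, Complex.norm_exp_ofReal_mul_I, mul_one]
  have hSc : Continuous S := by
    refine continuous_tsum (fun n => ?_) ha (fun n t => (hterm n t).le)
    fun_prop
  have hSb : ∀ t, ‖S t‖ ≤ ∑' n, ‖a n‖ := by
    intro t
    have h1 : Summable (fun n => ‖a n * exp (-((ν n * t : ℝ) : ℂ) * I)‖) :=
      ha.congr (fun n => (hterm n t).symm)
    refine (norm_tsum_le_tsum_norm h1).trans (le_of_eq (tsum_congr (fun n => hterm n t)))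
  set B : ℝ := ∑' n, ‖a n‖ with hB
  have hB0 : 0 ≤ B := tsum_nonneg (fun n => norm_nonneg _)
  set u : ℝ → ℝ → ℂ := fun T x => S (T * x) * exp ((μ * (T * x) : ℝ) * I) with hu
  have hub : ∀ T x, ‖u T x‖ ≤ B := by
    intro T x
    simp only [hu]
    rw [norm_mul, Complex.norm_exp_ofReal_mul_I, mul_one]
    exact hSb _
  have huc : ∀ T, Continuous (u T) := by
    intro T
    simp only [hu]
    exact (hSc.comp (by fun_prop)).mul (by fun_prop)
  -- substitution
  have hsub : ∀ T : ℝ, 0 < T → (1 / T : ℂ) * ∫ t in Ioi T0, S t * exp ((μ * t : ℝ) * I) *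
      exp (((α + t * I) / T) ^ 2) = ∫ x, (Ioi (T0 / T)).indicator
        (fun x : ℝ => exp ((α / T + x * I) ^ 2)) x * u T x := by
    intro T hT
    have h1 := integral_comp_mul_left_Ioi (fun t : ℝ => S t * exp ((μ * t : ℝ) * I) *
      exp (((α + t * I) / T) ^ 2)) (T0 / T) hT
    rw [mul_div_cancel₀ _ hT.ne'] at h1
    have h2 : (1 / T : ℂ) * ∫ t in Ioi T0, S t * exp ((μ * t : ℝ) * I) *
      exp (((α + t * I) / T) ^ 2) = T⁻¹ • ∫ t in Ioi T0, S t * exp ((μ * t : ℝ) * I) *
      exp (((α + t * I) / T) ^ 2) := by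
      rw [Complex.real_smul]
      push_cast
      rw [one_div]
    rw [h2, ← h1, ← integral_indicator measurableSet_Ioi]
    congr 1
    funext x
    by_cases hx : x ∈ Ioi (T0 / T)
    · rw [indicator_of_mem hx, indicator_of_mem hx]
      simp only [hu]
      have h3 : ((α + ((T * x : ℝ) : ℂ) * I) / T) = α / T + x * I := by
        have : (T : ℂ) ≠ 0 := by exact_mod_cast hT.ne'
        push_cast
        field_simp
      rw [h3]
      ring
    · rw [indicator_of_notMem hx, indicator_of_notMem hx, zero_mul]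
  -- replace the kernel by the Gaussian
  have hGu : ∀ T, Integrable (fun x => Gh x * u T x) := fun T =>
    Gh_integrable.mul_bdd (c := B) (huc T).aestronglyMeasurable (Eventually.of_forall (hub T))
  have hK : ∀ T : ℝ, 1 ≤ T → Integrable ((Ioi (T0 / T)).indicator
      (fun x : ℝ => exp (((α : ℂ) / T + x * I) ^ 2))) := by
    intro T hT
    refine (exp_sq_integrable.const_mul (Real.exp (α ^ 2))).mono' ?_ (Eventually.of_forall (fun x => ?_))
    · refine AEStronglyMeasurable.indicator ?_ measurableSet_Ioi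
      exact (by fun_prop : Continuous (fun x : ℝ => exp ((α / T + x * I) ^ 2))).aestronglyMeasurable
    · by_cases hx : x ∈ Ioi (T0 / T)
      · rw [indicator_of_mem hx, norm_kernel, ← Real.exp_add]
        apply Real.exp_le_exp.2
        have : (α / T) ^ 2 ≤ α ^ 2 := by
          rw [div_pow]
          exact div_le_self (by positivity) (by nlinarith)
        linarith
      · rw [indicator_of_notMem hx, norm_zero]
        positivity
  have hdiff : Tendsto (fun T : ℝ => (∫ x, (Ioi (T0 / T)).indicator
        (fun x : ℝ => exp ((α / T + x * I) ^ 2)) x * u T x) - ∫ x, Gh x * u T x) atTop (𝓝 0) := by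
    rw [tendsto_zero_iff_norm_tendsto_zero]
    have h1 : Tendsto (fun T : ℝ => B * ∫ x, ‖(Ioi (T0 / T)).indicator
      (fun x : ℝ => exp ((α / T + x * I) ^ 2)) x - Gh x‖) atTop (𝓝 (B * 0)) :=
      (Phi_tendsto α h0).const_mul B
    rw [mul_zero] at h1
    refine squeeze_zero' (Eventually.of_forall (fun T => norm_nonneg _)) ?_ h1
    filter_upwards [eventually_ge_atTop 1] with T hT
    have h2 : Integrable (fun x => (Ioi (T0 / T)).indicator
        (fun x : ℝ => exp ((α / T + x * I) ^ 2)) x * u T x) :=
      (hK T hT).mul_bdd (c := B) (huc T).aestronglyMeasurable (Eventually.of_forall (hub T))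
    rw [← integral_sub h2 (hGu T), ← integral_const_mul]
    refine norm_integral_le_of_norm_le ((((hK T hT).sub Gh_integrable).norm).const_mul B)
      (Eventually.of_forall (fun x => ?_))
    rw [← sub_mul, norm_mul, mul_comm]
    exact mul_le_mul_of_nonneg_right (hub T x) (norm_nonneg _)
  -- the series
  have hser : ∀ T : ℝ, ∫ x, Gh x * u T x = ∑' n, a n * BT (μ - ν n) T := by
    intro T
    have h1 : ∀ n, Integrable (fun x => a n * (Gh x * exp (((μ - ν n) * T * x : ℝ) * I))) := by
      intro n
      refine Integrable.const_mul ?_ _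
      refine Gh_integrable.mul_bdd (c := 1) ?_ (Eventually.of_forall (fun x => ?_))
      · exact (by fun_prop : Continuous (fun x : ℝ =>
          exp (((μ - ν n) * T * x : ℝ) * I))).aestronglyMeasurable
      · rw [Complex.norm_exp_ofReal_mul_I]
    have h2 : Summable (fun n => ∫ x, ‖a n * (Gh x * exp (((μ - ν n) * T * x : ℝ) * I))‖) := by
      refine (ha.mul_right (∫ x, ‖Gh x‖)).congr (fun n => ?_)
      rw [← integral_const_mul]
      congr 1
      funext x
      rw [norm_mul, norm_mul, Complex.norm_exp_ofReal_mul_I, mul_one]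
    have h3 := (hasSum_integral_of_summable_integral_norm h1 h2).tsum_eq
    have h4 : (fun x => Gh x * u T x) =
        fun x => ∑' n, a n * (Gh x * exp (((μ - ν n) * T * x : ℝ) * I)) := by
      funext x
      simp only [hu, hS]
      rw [← tsum_mul_right, ← tsum_mul_left]
      refine tsum_congr (fun n => ?_)
      have h5 : exp (((μ - ν n) * T * x : ℝ) * I) = exp (-((ν n * (T * x) : ℝ) : ℂ) * I) *
          exp ((μ * (T * x) : ℝ) * I) := by
        rw [← Complex.exp_add]
        congr 1
        push_cast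
        ring
      rw [h5]
      ring
    rw [h4, ← h3]
    refine tsum_congr (fun n => ?_)
    rw [integral_const_mul, BT]
  have hlim : Tendsto (fun T : ℝ => ∑' n, a n * BT (μ - ν n) T) atTop
      (𝓝 (∑' n, a n * (if ν n = μ then cG else 0))) := by
    refine tendsto_tsum_of_dominated_convergence (bound := fun n => ‖a n‖ * ∫ x, ‖Gh x‖)
      (ha.mul_right _) (fun n => ?_) (Eventually.of_forall (fun T n => ?_))
    · refine Tendsto.const_mul _ ?_
      by_cases h : ν n = μ
      · rw [if_pos h, h, sub_self]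
        exact tendsto_const_nhds.congr (fun T => (BT_zero T).symm)
      · rw [if_neg h]
        exact BT_tendsto (sub_ne_zero.2 (Ne.symm h))
    · rw [norm_mul]
      exact mul_le_mul_of_nonneg_left (BT_norm _ _) (norm_nonneg _)
  have hfin : (∑' n, a n * (if ν n = μ then cG else 0)) = cG * ∑' n, (if ν n = μ then a n else 0) := by
    rw [← tsum_mul_left]
    refine tsum_congr (fun n => ?_)
    split_ifs <;> ring
  rw [← hfin]
  have h5 := hdiff.add hlim
  rw [zero_add] at h5
  refine h5.congr' ?_
  filter_upwards [eventually_gt_atTop 0] with T hT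
  rw [hsub T hT, ← hser T]
  ring

end Pool.Agent.SelCR
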