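import Pool.Agent.SelPole.Defs

/-! Size of the coefficients of `log F` at higher prime powers, for `F` in the Selberg class. -/

set_option autoImplicit false

namespace Pool.Agent.SelCR

open Complex Filter Topology
open Pool.Agent.SelPole

/-- `n` is `p^k` with `k ≥ K` -/
def PPge (K n : ℕ) : Prop := ∃ p k : ℕ, p.Prime ∧ K ≤ k ∧ n = p ^ k

theorem pow_inj {K : ℕ} (hK : 1 ≤ K) :
    Function.Injective (fun x : Nat.Primes × ℕ => (x.1 : ℕ) ^ (K + x.2)) := by
  rintro ⟨p, k⟩ ⟨q, l⟩ h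
  simp only at h
  have hp := p.2
  have hq := q.2
  have h1 : (p : ℕ) ∣ (q : ℕ) ^ (K + l) := by
    rw [← h]
    exact dvd_pow_self _ (by omega)
  have h2 : (p : ℕ) = q := (Nat.prime_dvd_prime_iff_eq hp hq).1 (hp.dvd_of_dvd_pow h1)
  have h3 : p = q := Subtype.ext h2
  subst h3
  have h4 := Nat.pow_right_injective hp.two_le h
  have h5 : k = l := by simpa using h4
  rw [h5]

/-- prime powers with exponent at least `K` -/
theorem summable_PPge {K : ℕ} (hK : 1 ≤ K) {τ : ℝ} (hτ : 1 < K * τ) :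
    Summable (fun n : ℕ => open Classical in if PPge K n then (n : ℝ) ^ (-τ) else 0) := by
  have hK0 : (0 : ℝ) < K := by exact_mod_cast hK
  have hτ0 : 0 < τ := by
    by_contra h
    push Not at h
    nlinarith
  rw [← (pow_inj hK).summable_iff]
  · have h1 : ((fun n : ℕ => open Classical in if PPge K n then (n : ℝ) ^ (-τ) else 0) ∘
        fun x : Nat.Primes × ℕ => (x.1 : ℕ) ^ (K + x.2)) =
        fun x : Nat.Primes × ℕ => ((x.1 : ℕ) : ℝ) ^ (-(K * τ)) * (((x.1 : ℕ) : ℝ) ^ (-τ)) ^ x.2 := by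
      funext x
      have hx : (0 : ℝ) < ((x.1 : ℕ) : ℝ) := by exact_mod_cast x.1.2.pos
      simp only [Function.comp_apply]
      rw [if_pos ⟨x.1, K + x.2, x.1.2, by omega, rfl⟩]
      push_cast
      rw [← Real.rpow_natCast, ← Real.rpow_natCast, ← Real.rpow_mul hx.le, ← Real.rpow_mul hx.le,
        ← Real.rpow_add hx]
      congr 1
      push_cast
      ring
    rw [h1]
    have h2lt : (2 : ℝ) ^ (-τ) < 1 := Real.rpow_lt_one_of_one_lt_of_neg (by norm_num) (by linarith)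
    have hq : ∀ p : Nat.Primes, ((p : ℕ) : ℝ) ^ (-τ) ≤ (2 : ℝ) ^ (-τ) := fun p =>
      Real.rpow_le_rpow_of_nonpos (by norm_num) (by exact_mod_cast p.2.two_le) (by linarith)
    have hs1 : Summable (fun p : Nat.Primes => ((p : ℕ) : ℝ) ^ (-(K * τ))) :=
      (Nat.Primes.summable_rpow (r := -(K * τ))).2 (by linarith)
    have hs2 : Summable (fun k : ℕ => ((2 : ℝ) ^ (-τ)) ^ k) :=
      summable_geometric_of_lt_one (by positivity) h2lt
    refine Summable.of_nonneg_of_le (fun x => by positivity) (fun x => ?_)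
      (hs1.mul_of_nonneg hs2 (fun p => by positivity) (fun k => by positivity))
    exact mul_le_mul_of_nonneg_left (pow_le_pow_left₀ (by positivity) (hq x.1) x.2)
      (by positivity)
  · intro n hn
    rw [if_neg]
    rintro ⟨p, k, hp, hk, rfl⟩
    exact hn ⟨(⟨p, hp⟩, k - K), by simp only; congr 1; omega⟩

/-- convolution identity `log · a = a * (log · b)` -/
theorem conv_log {F : ℂ → ℂ} {a b : ℕ → ℂ} (hF : IsSelberg F a b) :
    ∀ n : ℕ, n ≠ 0 → LSeries.logMul a n = (LSeries.convolution a (LSeries.logMul b)) n := by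
  have hab : LSeries.abscissaOfAbsConv a ≤ 1 := by
    refine LSeries.abscissaOfAbsConv_le_of_forall_lt_LSeriesSummable (fun y hy => ?_)
    exact hF.summable y (by simpa using hy)
  have hbb : LSeries.abscissaOfAbsConv b ≤ 1 := by
    refine LSeries.abscissaOfAbsConv_le_of_forall_lt_LSeriesSummable (fun y hy => ?_)
    exact hF.log_summable y (by simpa using hy)
  have hlt : ∀ s : ℂ, 1 < s.re → LSeries.abscissaOfAbsConv a < s.re := fun s hs =>
    lt_of_le_of_lt hab (by exact_mod_cast hs)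
  have hlt' : ∀ s : ℂ, 1 < s.re → LSeries.abscissaOfAbsConv b < s.re := fun s hs =>
    lt_of_le_of_lt hbb (by exact_mod_cast hs)
  have hsa : ∀ s : ℂ, 1 < s.re → LSeriesSummable (LSeries.logMul a) s := fun s hs =>
    LSeriesSummable_logMul_of_lt_re (hlt s hs)
  have hsb : ∀ s : ℂ, 1 < s.re → LSeriesSummable (LSeries.logMul b) s := fun s hs =>
    LSeriesSummable_logMul_of_lt_re (hlt' s hs)
  have heq : ∀ s : ℂ, 1 < s.re → LSeries (LSeries.logMul a) s =
      LSeries a s * LSeries (LSeries.logMul b) s := by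
    intro s hs
    have hU : {z : ℂ | 1 < z.re} ∈ 𝓝 s :=
      (isOpen_lt continuous_const continuous_re).mem_nhds hs
    have h1 := LSeries_hasDerivAt (hlt s hs)
    have h2 := (LSeries_hasDerivAt (hlt' s hs)).cexp
    have h3 : (fun z => exp (LSeries b z)) =ᶠ[𝓝 s] LSeries a := by
      filter_upwards [hU] with z hz
      rw [← hF.log_series z hz, hF.eq_series z hz]
    have h4 := (h2.congr_of_eventuallyEq h3.symm).unique h1
    have h5 : exp (LSeries b s) = LSeries a s := h3.eq_of_nhds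
    rw [h5] at h4
    linear_combination h4
  have hconv : ∀ s : ℂ, 1 < s.re → LSeriesSummable (LSeries.convolution a (LSeries.logMul b)) s ∧
      LSeries (LSeries.convolution a (LSeries.logMul b)) s =
      LSeries a s * LSeries (LSeries.logMul b) s := fun s hs =>
    ⟨(hF.summable s hs).convolution (hsb s hs), LSeries_convolution' (hF.summable s hs) (hsb s hs)⟩
  have hA : LSeries.abscissaOfAbsConv (LSeries.logMul a) < ⊤ := by
    rw [LSeries.abscissaOfAbsConv_logMul]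
    exact lt_of_le_of_lt hab (EReal.coe_lt_top (1 : ℝ))
  have hB : LSeries.abscissaOfAbsConv (LSeries.convolution a (LSeries.logMul b)) < ⊤ := by
    have := LSeriesSummable.abscissaOfAbsConv_le (hconv 2 (by simp)).1
    refine lt_of_le_of_lt this ?_
    exact EReal.coe_lt_top _
  intro n hn
  refine LSeries.eq_of_LSeries_eventually_eq hA hB ?_ hn
  filter_upwards [eventually_gt_atTop 1] with x hx
  rw [heq x (by simpa using hx), (hconv x (by simpa using hx)).2]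

/-- the recursion at the powers of a prime -/
theorem rec_pow {F : ℂ → ℂ} {a b : ℕ → ℂ} (hF : IsSelberg F a b) {p : ℕ} (hp : p.Prime) (k : ℕ) :
    ((k + 1 : ℕ) : ℂ) * a (p ^ (k + 1)) = ∑ j ∈ Finset.range (k + 1),
      a (p ^ (k - j)) * (((j + 1 : ℕ) : ℂ) * b (p ^ (j + 1))) := by
  have h1 := conv_log hF (p ^ (k + 1)) (pow_ne_zero _ hp.ne_zero)
  have hl : (Real.log p : ℂ) ≠ 0 := by
    have : 0 < Real.log p := Real.log_pos (by exact_mod_cast hp.one_lt)
    exact_mod_cast this.ne'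
  have hlog : ∀ m : ℕ, Complex.log ((p ^ m : ℕ) : ℂ) = (m : ℂ) * (Real.log p : ℂ) := by
    intro m
    rw [← Complex.natCast_log]
    push_cast
    rw [Real.log_pow]
    push_cast
    ring
  rw [LSeries.convolution_def] at h1
  simp only [LSeries.logMul] at h1
  rw [Nat.sum_divisorsAntidiagonal (fun i j => a i * (Complex.log (j : ℂ) * b j)),
    Nat.sum_divisors_prime_pow hp, Finset.sum_range_succ, hlog] at h1
  have h2 : ∀ x ∈ Finset.range (k + 1), a (p ^ x) *
      (Complex.log ((p ^ (k + 1) / p ^ x : ℕ) : ℂ) * b (p ^ (k + 1) / p ^ x)) =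
      (Real.log p : ℂ) * (a (p ^ x) * (((k + 1 - x : ℕ) : ℂ) * b (p ^ (k + 1 - x)))) := by
    intro x hx
    have hx' : x ≤ k + 1 := (Finset.mem_range.1 hx).le
    rw [Nat.pow_div hx' hp.pos, hlog]
    ring
  rw [Finset.sum_congr rfl h2, Nat.div_self (pow_pos hp.pos _)] at h1
  rw [← Finset.mul_sum] at h1
  simp only [Nat.cast_one, Complex.log_one, zero_mul, mul_zero, add_zero] at h1
  have h3 : ((k + 1 : ℕ) : ℂ) * a (p ^ (k + 1)) = ∑ x ∈ Finset.range (k + 1),
      a (p ^ x) * (((k + 1 - x : ℕ) : ℂ) * b (p ^ (k + 1 - x))) := by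
    apply mul_left_cancel₀ hl
    rw [← h1]
    ring
  rw [h3, ← Finset.sum_range_reflect]
  refine Finset.sum_congr rfl (fun j hj => ?_)
  have hj' : j ≤ k := Nat.lt_succ_iff.1 (Finset.mem_range.1 hj)
  have e1 : k + 1 - 1 - j = k - j := by omega
  have e2 : k + 1 - (k - j) = j + 1 := by omega
  rw [e1, e2]

/-- the coefficients at `p^k`, for fixed `k`, are `O(p^ε)` -/
theorem b_small {F : ℂ → ℂ} {a b : ℕ → ℂ} (hF : IsSelberg F a b) (k : ℕ) :
    ∀ ε : ℝ, 0 < ε → ∃ C : ℝ, 0 ≤ C ∧ ∀ p : ℕ, p.Prime → ‖b (p ^ k)‖ ≤ C * (p : ℝ) ^ ε := by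
  have ha : ∀ j : ℕ, ∀ ε : ℝ, 0 < ε → ∃ C : ℝ, 0 ≤ C ∧ ∀ p : ℕ, p.Prime →
      ‖a (p ^ j)‖ ≤ C * (p : ℝ) ^ ε := by
    intro j ε hε
    obtain ⟨C, hC⟩ := hF.ramanujan (ε / (j + 1)) (by positivity)
    refine ⟨|C|, abs_nonneg _, fun p hp => ?_⟩
    have hp1 : (1 : ℝ) ≤ p := by exact_mod_cast hp.one_lt.le
    have h1 := hC (p ^ j) (Nat.one_le_pow _ _ hp.pos)
    refine h1.trans ?_
    have h2 : ((p ^ j : ℕ) : ℝ) ^ (ε / (j + 1)) ≤ (p : ℝ) ^ ε := by
      push_cast
      rw [← Real.rpow_natCast, ← Real.rpow_mul (by linarith)]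
      refine Real.rpow_le_rpow_of_exponent_le hp1 ?_
      rw [mul_div_assoc']
      rw [div_le_iff₀ (by positivity)]
      nlinarith
    calc C * ((p ^ j : ℕ) : ℝ) ^ (ε / (j + 1)) ≤ |C| * ((p ^ j : ℕ) : ℝ) ^ (ε / (j + 1)) := by
          gcongr; exact le_abs_self C
      _ ≤ _ := by gcongr
  induction k using Nat.strong_induction_on with
  | _ k ih =>
    intro ε hε
    rcases Nat.eq_zero_or_pos k with rfl | hk
    · refine ⟨0, le_rfl, fun p hp => ?_⟩
      rw [pow_zero, hF.b_supp 1 (by exact not_isPrimePow_one)]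
      simp
    obtain ⟨m, rfl⟩ : ∃ m, k = m + 1 := ⟨k - 1, by omega⟩
    -- constants
    obtain ⟨A, hA0, hA⟩ := ha (m + 1) ε hε
    have h1 : ∀ j : ℕ, ∃ B : ℝ, 0 ≤ B ∧ ∀ p : ℕ, p.Prime → j < m →
        ‖a (p ^ (m - j)) * (((j + 1 : ℕ) : ℂ) * b (p ^ (j + 1)))‖ ≤ B * (p : ℝ) ^ ε := by
      intro j
      by_cases hj : j < m
      · obtain ⟨B1, hB10, hB1⟩ := ha (m - j) (ε / 2) (by linarith)
        obtain ⟨B2, hB20, hB2⟩ := ih (j + 1) (by omega) (ε / 2) (by linarith)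
        refine ⟨B1 * ((j + 1 : ℕ) * B2), by positivity, fun p hp _ => ?_⟩
        have hp0 : (0 : ℝ) < p := by exact_mod_cast hp.pos
        rw [norm_mul, norm_mul, Complex.norm_natCast]
        calc ‖a (p ^ (m - j))‖ * (((j + 1 : ℕ) : ℝ) * ‖b (p ^ (j + 1))‖) ≤
              (B1 * (p : ℝ) ^ (ε / 2)) * (((j + 1 : ℕ) : ℝ) * (B2 * (p : ℝ) ^ (ε / 2))) := by
              gcongr
              · exact hB1 p hp
              · exact hB2 p hp
          _ = B1 * ((j + 1 : ℕ) * B2) * ((p : ℝ) ^ (ε / 2) * (p : ℝ) ^ (ε / 2)) := by ring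
          _ = _ := by rw [← Real.rpow_add hp0, add_halves]
      · exact ⟨0, le_rfl, fun p hp h => absurd h hj⟩
    choose B hB0 hB using h1
    refine ⟨(m + 1 : ℕ) * A + ∑ j ∈ Finset.range m, B j, ?_, fun p hp => ?_⟩
    · have := Finset.sum_nonneg (fun j (_ : j ∈ Finset.range m) => hB0 j)
      positivity
    have h2 := rec_pow hF hp m
    rw [Finset.sum_range_succ, Nat.sub_self, pow_zero, hF.a_one, one_mul] at h2
    have h3 : ((m + 1 : ℕ) : ℂ) * b (p ^ (m + 1)) = ((m + 1 : ℕ) : ℂ) * a (p ^ (m + 1)) -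
        ∑ j ∈ Finset.range m, a (p ^ (m - j)) * (((j + 1 : ℕ) : ℂ) * b (p ^ (j + 1))) := by
      rw [h2]; ring
    have h4 : ‖((m + 1 : ℕ) : ℂ) * b (p ^ (m + 1))‖ ≤
        ((m + 1 : ℕ) * A + ∑ j ∈ Finset.range m, B j) * (p : ℝ) ^ ε := by
      rw [h3, add_mul, Finset.sum_mul]
      refine (norm_sub_le _ _).trans (add_le_add ?_ ?_)
      · rw [norm_mul, Complex.norm_natCast, mul_assoc]
        gcongr
        exact hA p hp
      · refine (norm_sum_le _ _).trans (Finset.sum_le_sum (fun j hj => ?_))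
        exact hB j p hp (Finset.mem_range.1 hj)
    rw [norm_mul, Complex.norm_natCast] at h4
    have h5 : (1 : ℝ) ≤ ((m + 1 : ℕ) : ℝ) := by exact_mod_cast Nat.succ_le_succ (Nat.zero_le m)
    nlinarith [norm_nonneg (b (p ^ (m + 1)))]

/-- `n` is a prime or the square of a prime -/
def P12 (n : ℕ) : Prop := n.Prime ∨ ∃ p : ℕ, p.Prime ∧ n = p ^ 2

/-- the terms which are neither primes nor squares of primes converge on a line to the left of
`Re s = 1/2` -/
theorem higher {F : ℂ → ℂ} {a b : ℕ → ℂ} (hF : IsSelberg F a b) :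
    ∃ β : ℝ, β < 1 / 2 ∧ ∀ σ : ℝ, β < σ → Summable (fun n : ℕ => open Classical in
      if P12 n then 0 else ‖b n‖ * Real.log n * (n : ℝ) ^ (-σ)) := by
  obtain ⟨θ, C, hθ, hC⟩ := hF.b_bound
  refine ⟨max (1 / 3) θ, max_lt (by norm_num) hθ, fun σ hσ => ?_⟩
  have hσ1 : 1 / 3 < σ := lt_of_le_of_lt (le_max_left _ _) hσ
  have hσ2 : θ < σ := lt_of_le_of_lt (le_max_right _ _) hσ
  obtain ⟨ε, hε, hε1, hε2⟩ : ∃ ε : ℝ, 0 < ε ∧ 1 / 3 < σ - 2 * ε ∧ θ < σ - ε := by
    refine ⟨min ((σ - 1 / 3) / 4) ((σ - θ) / 2), ?_, ?_, ?_⟩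
    · exact lt_min (by linarith) (by linarith)
    · have := min_le_left ((σ - 1 / 3) / 4) ((σ - θ) / 2)
      linarith
    · have := min_le_right ((σ - 1 / 3) / 4) ((σ - θ) / 2)
      linarith
  have hδ : 0 < σ - ε - θ := by linarith
  obtain ⟨K, hK⟩ := exists_nat_gt (1 / (σ - ε - θ))
  have hKpos : 1 ≤ K := by
    have : (0 : ℝ) < K := lt_trans (by positivity) hK
    exact_mod_cast this
  have hK1 : 1 < K * (σ - ε - θ) := by
    rw [div_lt_iff₀ hδ] at hK
    linarith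
  -- bound for the small exponents
  have hB : ∀ k : ℕ, ∃ B : ℝ, 0 ≤ B ∧ ∀ p : ℕ, p.Prime → ‖b (p ^ k)‖ ≤ B * (p : ℝ) ^ ε :=
    fun k => b_small hF k ε hε
  choose B hB0 hB using hB
  set D : ℝ := ∑ k ∈ Finset.range K, B k with hD
  have hD0 : 0 ≤ D := Finset.sum_nonneg (fun k _ => hB0 k)
  have hs1 := summable_PPge (K := 3) (by norm_num) (τ := σ - 2 * ε) (by push_cast; linarith)
  have hs2 := summable_PPge hKpos hK1
  have hs := (hs1.mul_left (D * (1 / ε))).add (hs2.mul_left (|C| * (1 / ε)))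
  refine Summable.of_nonneg_of_le (fun n => ?_) (fun n => ?_) hs
  · split_ifs
    · exact le_rfl
    · positivity
  · have hnn1 : 0 ≤ D * (1 / ε) * (open Classical in if PPge 3 n then (n : ℝ) ^ (-(σ - 2 * ε)) else 0) := by
      split_ifs <;> positivity
    have hnn2 : 0 ≤ |C| * (1 / ε) * (open Classical in
        if PPge K n then (n : ℝ) ^ (-(σ - ε - θ)) else 0) := by
      split_ifs <;> positivity
    by_cases h12 : P12 n
    · rw [if_pos h12]
      exact add_nonneg hnn1 hnn2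
    rw [if_neg h12]
    by_cases hpp : IsPrimePow n
    swap
    · rw [hF.b_supp n hpp]
      simp only [norm_zero, zero_mul]
      exact add_nonneg hnn1 hnn2
    obtain ⟨p, k, hp, hk, rfl⟩ := (isPrimePow_nat_iff n).1 hpp
    have hk3 : 3 ≤ k := by
      by_contra h
      have : k = 1 ∨ k = 2 := by omega
      rcases this with rfl | rfl
      · exact h12 (Or.inl (by simpa using hp))
      · exact h12 (Or.inr ⟨p, hp, rfl⟩)
    have hn1 : (1 : ℝ) ≤ ((p ^ k : ℕ) : ℝ) := by exact_mod_cast Nat.one_le_pow _ _ hp.pos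
    have hn0 : (0 : ℝ) < ((p ^ k : ℕ) : ℝ) := by linarith
    have hlog : Real.log ((p ^ k : ℕ) : ℝ) ≤ (1 / ε) * ((p ^ k : ℕ) : ℝ) ^ ε := by
      have := Real.log_le_rpow_div hn0.le hε
      rw [one_div, inv_mul_eq_div]
      exact this
    have hlog0 : 0 ≤ Real.log ((p ^ k : ℕ) : ℝ) := Real.log_nonneg hn1
    by_cases hkK : k < K
    · have h1 : ‖b (p ^ k)‖ ≤ D * ((p ^ k : ℕ) : ℝ) ^ ε := by
        refine (hB k p hp).trans ?_
        have h2 : B k ≤ D := Finset.single_le_sum (fun j _ => hB0 j) (Finset.mem_range.2 hkK)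
        have h3 : (p : ℝ) ≤ ((p ^ k : ℕ) : ℝ) := by
          exact_mod_cast Nat.le_self_pow (by omega) p
        gcongr
      have h2 : ‖b (p ^ k)‖ * Real.log ((p ^ k : ℕ) : ℝ) * ((p ^ k : ℕ) : ℝ) ^ (-σ) ≤
          D * (1 / ε) * ((p ^ k : ℕ) : ℝ) ^ (-(σ - 2 * ε)) := by
        calc ‖b (p ^ k)‖ * Real.log ((p ^ k : ℕ) : ℝ) * ((p ^ k : ℕ) : ℝ) ^ (-σ) ≤
            (D * ((p ^ k : ℕ) : ℝ) ^ ε) * ((1 / ε) * ((p ^ k : ℕ) : ℝ) ^ ε) *
              ((p ^ k : ℕ) : ℝ) ^ (-σ) := by gcongr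
          _ = D * (1 / ε) * (((p ^ k : ℕ) : ℝ) ^ ε * ((p ^ k : ℕ) : ℝ) ^ ε *
              ((p ^ k : ℕ) : ℝ) ^ (-σ)) := by ring
          _ = _ := by
            rw [← Real.rpow_add hn0, ← Real.rpow_add hn0]
            congr 2
            ring
      rw [if_pos (show PPge 3 (p ^ k) from ⟨p, k, hp, hk3, rfl⟩)]
      linarith
    · have h1 : ‖b (p ^ k)‖ ≤ |C| * ((p ^ k : ℕ) : ℝ) ^ θ := by
        refine (hC (p ^ k) (Nat.one_le_pow _ _ hp.pos)).trans ?_
        gcongr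
        exact le_abs_self C
      have h2 : ‖b (p ^ k)‖ * Real.log ((p ^ k : ℕ) : ℝ) * ((p ^ k : ℕ) : ℝ) ^ (-σ) ≤
          |C| * (1 / ε) * ((p ^ k : ℕ) : ℝ) ^ (-(σ - ε - θ)) := by
        calc ‖b (p ^ k)‖ * Real.log ((p ^ k : ℕ) : ℝ) * ((p ^ k : ℕ) : ℝ) ^ (-σ) ≤
            (|C| * ((p ^ k : ℕ) : ℝ) ^ θ) * ((1 / ε) * ((p ^ k : ℕ) : ℝ) ^ ε) *
              ((p ^ k : ℕ) : ℝ) ^ (-σ) := by gcongr
          _ = |C| * (1 / ε) * (((p ^ k : ℕ) : ℝ) ^ θ * ((p ^ k : ℕ) : ℝ) ^ ε *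
              ((p ^ k : ℕ) : ℝ) ^ (-σ)) := by ring
          _ = _ := by
            rw [← Real.rpow_add hn0, ← Real.rpow_add hn0]
            congr 2
            ring
      rw [if_pos (show PPge K (p ^ k) from ⟨p, k, hp, by omega, rfl⟩)]
      linarith

end Pool.Agent.SelCR
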