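import Mathlib

/-! A two-sided bound for `log |R/P|` when `R/P` has neither zeros nor poles, from upper bounds for
`R`, `P` on a circle and lower bounds at its centre (Poisson's formula and Jensen's formula). -/

set_option autoImplicit false

namespace Pool.Agent.SelCR

open Complex Filter Topology Set Metric Real MeromorphicOn
open InnerProductSpace

/-- the mean of `|log |P||` over a circle -/
theorem avg_abs_log {P : ℂ → ℂ} {c : ℂ} {ρ M : ℝ} (hρ : 0 < ρ) (hM : 0 ≤ M)
    (hP : AnalyticOnNhd ℂ P (closedBall c ρ)) (hb : ∀ z ∈ sphere c ρ, ‖P z‖ ≤ Real.exp M)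
    (h0 : Real.exp (-M) ≤ ‖P c‖) :
    CircleIntegrable (fun z => |Real.log ‖P z‖|) c ρ ∧
    circleAverage (fun z => |Real.log ‖P z‖|) c ρ ≤ 3 * M := by
  have hmer : MeromorphicOn P (sphere c |ρ|) := by
    rw [abs_of_pos hρ]
    exact (hP.mono sphere_subset_closedBall).meromorphicOn
  have hi1 : CircleIntegrable (fun z => Real.log ‖P z‖) c ρ := hmer.circleIntegrable_log_norm
  have hi2 : CircleIntegrable (fun z => Real.posLog ‖P z‖) c ρ := hmer.circleIntegrable_posLog_norm
  have habs : (fun z => |Real.log ‖P z‖|) = (fun z => (2 : ℝ) • Real.posLog ‖P z‖) -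
      (fun z => Real.log ‖P z‖) := by
    funext z
    simp only [Pi.sub_apply, smul_eq_mul, Real.posLog_apply]
    rcases le_total 0 (Real.log ‖P z‖) with h | h
    · rw [abs_of_nonneg h, max_eq_right h]; ring
    · rw [abs_of_nonpos h, max_eq_left h]; ring
  have hi3 : CircleIntegrable (fun z => (2 : ℝ) • Real.posLog ‖P z‖) c ρ := hi2.const_smul
  have hPc : P c ≠ 0 := by
    intro h
    rw [h, norm_zero] at h0
    exact absurd h0 (not_le.2 (Real.exp_pos _))
  refine ⟨?_, ?_⟩
  · rw [habs]; exact hi3.sub hi1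
  rw [habs, circleAverage_sub hi3 hi1]
  have h1 : circleAverage (fun z => (2 : ℝ) • Real.posLog ‖P z‖) c ρ ≤ 2 * M := by
    refine circleAverage_mono_on_of_le_circle hi3 (fun z hz => ?_)
    rw [abs_of_pos hρ] at hz
    have h2 : Real.posLog ‖P z‖ ≤ M := by
      rw [Real.posLog_apply]
      refine max_le hM ?_
      rcases eq_or_ne ‖P z‖ 0 with h | h
      · rw [h, Real.log_zero]; exact hM
      · rw [Real.log_le_iff_le_exp (lt_of_le_of_ne (norm_nonneg _) h.symm)]
        exact hb z hz
    simp only [smul_eq_mul]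
    linarith
  have h2 : -M ≤ circleAverage (fun z => Real.log ‖P z‖) c ρ := by
    have hP' : AnalyticOnNhd ℂ P (closedBall c |ρ|) := by rw [abs_of_pos hρ]; exact hP
    rw [AnalyticOnNhd.circleAverage_log_norm hρ.ne' hP' hPc]
    have h3 : 0 ≤ ∑ᶠ u, (divisor P (closedBall c |ρ|) u : ℝ) * Real.log (ρ * ‖c - u‖⁻¹) := by
      refine finsum_nonneg (fun u => ?_)
      have h4 : 0 ≤ divisor P (closedBall c |ρ|) u := (hP'.divisor_nonneg) u
      by_cases hu : u ∈ closedBall c |ρ|
      · refine mul_nonneg (by exact_mod_cast h4) ?_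
        rcases eq_or_ne (c - u) 0 with h | h
        · rw [h]; simp
        · apply Real.log_nonneg
          have h5 : 0 < ‖c - u‖ := norm_pos_iff.2 h
          rw [← div_eq_mul_inv, le_div_iff₀ h5, one_mul]
          rw [mem_closedBall, dist_comm, dist_eq_norm, abs_of_pos hρ] at hu
          exact hu
      · rw [Function.locallyFinsuppWithin.apply_eq_zero_of_notMem _ hu]
        simp
    have h6 : -M ≤ Real.log ‖P c‖ := by
      rw [Real.le_log_iff_exp_le (norm_pos_iff.2 hPc)]
      exact h0
    linarith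
  linarith

/-- the two-sided bound -/
theorem log_bound {R P H : ℂ → ℂ} {c : ℂ} {ρ M : ℝ} (hρ : 0 < ρ) (hM : 0 ≤ M)
    (hR : AnalyticOnNhd ℂ R (closedBall c ρ)) (hP : AnalyticOnNhd ℂ P (closedBall c ρ))
    (hH : AnalyticOnNhd ℂ H (closedBall c ρ)) (hH0 : ∀ z ∈ closedBall c ρ, H z ≠ 0)
    (hRH : ∀ z ∈ closedBall c ρ, R z = H z * P z)
    (bR : ∀ z ∈ sphere c ρ, ‖R z‖ ≤ Real.exp M) (bP : ∀ z ∈ sphere c ρ, ‖P z‖ ≤ Real.exp M)
    (hR0 : Real.exp (-M) ≤ ‖R c‖) (hP0 : Real.exp (-M) ≤ ‖P c‖) {w : ℂ} (hw : w ∈ ball c ρ) :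
    |Real.log ‖H w‖| ≤ 6 * M * ((ρ + ‖w - c‖) / (ρ - ‖w - c‖)) := by
  obtain ⟨iR, aR⟩ := avg_abs_log hρ hM hR bR hR0
  obtain ⟨iP, aP⟩ := avg_abs_log hρ hM hP bP hP0
  have hharm : HarmonicOnNhd (fun z => Real.log ‖H z‖) (closedBall c ρ) :=
    fun z hz => (hH z hz).harmonicAt_log_norm (hH0 z hz)
  have hmean := hharm.circleAverage_poissonKernel_smul hw
  have hwn : ‖w - c‖ < ρ := by rwa [mem_ball, dist_eq_norm] at hw
  set κ : ℝ := (ρ + ‖w - c‖) / (ρ - ‖w - c‖) with hκ
  have hκ0 : 0 ≤ κ := div_nonneg (by positivity) (by linarith)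
  -- bound of the kernel on the circle
  have hker : ∀ z ∈ sphere c ρ, |poissonKernel c w z| ≤ κ := by
    intro z hz
    have h1 := re_herglotzRieszKernel_le hz hw
    have h2 := le_re_herglotzRieszKernel hz hw
    have h3 : poissonKernel c w z = ((z - c + (w - c)) / ((z - c) - (w - c))).re := by
      rw [poissonKernel_eq_re_herglotzRieszKernel]
      rfl
    rw [h3, abs_of_nonneg]
    · exact h1
    · refine le_trans ?_ h2
      exact div_nonneg (by linarith) (by positivity)
  -- `|log |H|| ≤ |log |R|| + |log |P||` off the zeros of `P`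
  have hcod : (fun z => |Real.log ‖H z‖|) =ᶠ[codiscreteWithin (sphere c |ρ|)]
      (fun z => |Real.log ‖R z‖ - Real.log ‖P z‖|) := by
    have h1 : ∀ᶠ z in codiscreteWithin (closedBall c ρ), P z ≠ 0 := by
      rcases hP.eqOn_zero_or_eventually_ne_zero_of_preconnected
        (convex_closedBall c ρ).isPreconnected with h | h
      · exfalso
        have h2 := h (mem_closedBall_self hρ.le)
        simp only [Pi.zero_apply] at h2
        rw [h2, norm_zero] at hP0
        exact absurd hP0 (not_le.2 (Real.exp_pos _))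
      · exact h
    have h2 : ∀ᶠ z in codiscreteWithin (sphere c |ρ|), P z ≠ 0 := by
      refine h1.filter_mono (codiscreteWithin_mono ?_)
      rw [abs_of_pos hρ]
      exact sphere_subset_closedBall
    filter_upwards [h2, self_mem_codiscreteWithin (sphere c |ρ|)] with z hz hzs
    rw [abs_of_pos hρ] at hzs
    have hzc := sphere_subset_closedBall hzs
    rw [hRH z hzc, norm_mul, Real.log_mul (norm_ne_zero_iff.2 (hH0 z hzc)) (norm_ne_zero_iff.2 hz)]
    ring_nf
  have iH : CircleIntegrable (fun z => |Real.log ‖H z‖|) c ρ := by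
    apply ContinuousOn.circleIntegrable hρ.le
    intro z hz
    have hzc := sphere_subset_closedBall hz
    have h1 : ContinuousAt (fun z => |Real.log ‖H z‖|) z := by
      have h2 := (hH z hzc).continuousAt
      have h3 : ‖H z‖ ≠ 0 := norm_ne_zero_iff.2 (hH0 z hzc)
      exact (h2.norm.log h3).abs
    exact h1.continuousWithinAt
  have hmer : ∀ {Q : ℂ → ℂ}, AnalyticOnNhd ℂ Q (closedBall c ρ) →
      CircleIntegrable (fun z => Real.log ‖Q z‖) c ρ := by
    intro Q hQ
    have : MeromorphicOn Q (sphere c |ρ|) := by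
      rw [abs_of_pos hρ]
      exact (hQ.mono sphere_subset_closedBall).meromorphicOn
    exact this.circleIntegrable_log_norm
  have h1 : circleAverage (fun z => |Real.log ‖H z‖|) c ρ ≤ 6 * M := by
    rw [circleAverage_congr_codiscreteWithin hcod hρ.ne']
    calc circleAverage (fun z => |Real.log ‖R z‖ - Real.log ‖P z‖|) c ρ
        ≤ circleAverage ((fun z => |Real.log ‖R z‖|) + (fun z => |Real.log ‖P z‖|)) c ρ := by
          refine circleAverage_mono ?_ (iR.add iP) (fun z _ => ?_)
          · exact ((hmer hR).sub (hmer hP)).abs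
          · simp only [Pi.add_apply]
            exact abs_sub _ _
      _ = _ := circleAverage_add iR iP
      _ ≤ 6 * M := by linarith
  calc |Real.log ‖H w‖| = |circleAverage (poissonKernel c w • fun z => Real.log ‖H z‖) c ρ| := by
        rw [hmean]
    _ ≤ circleAverage (fun z => |(poissonKernel c w • fun z => Real.log ‖H z‖) z|) c ρ :=
        abs_circleAverage_le_circleAverage_abs
    _ ≤ circleAverage (fun z => κ • |Real.log ‖H z‖|) c ρ := by
        refine circleAverage_mono ?_ iH.const_smul (fun z hz => ?_)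
        · apply ContinuousOn.circleIntegrable hρ.le
          have h2 : ContinuousOn (poissonKernel c w) (sphere c ρ) := by
            rw [poissonKernel_eq_re_herglotzRieszKernel]
            have h3 := continuousOn_herglotzRieszKernel_sphere hw
            rw [abs_of_pos hρ] at h3
            exact Complex.continuous_re.comp_continuousOn h3
          have h4 : ContinuousOn (fun z => Real.log ‖H z‖) (sphere c ρ) := by
            intro z hz
            have hzc := sphere_subset_closedBall hz
            have h5 := (hH z hzc).continuousAt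
            exact (h5.norm.log (norm_ne_zero_iff.2 (hH0 z hzc))).continuousWithinAt
          exact (h2.smul h4).abs
        · rw [abs_of_pos hρ] at hz
          simp only [Pi.smul_apply', smul_eq_mul, abs_mul]
          exact mul_le_mul_of_nonneg_right (hker z hz) (abs_nonneg _)
    _ = κ * circleAverage (fun z => |Real.log ‖H z‖|) c ρ := by
        rw [circleAverage_fun_smul]; rfl
    _ ≤ κ * (6 * M) := mul_le_mul_of_nonneg_left h1 hκ0
    _ = _ := by ring

end Pool.Agent.SelCR
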