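import Pool.Agent.SelCR.Gauss
import Pool.Agent.SelCR.Log

/-! Contour shift with a Gaussian weight. -/

set_option autoImplicit false

namespace Pool.Agent.SelCR

open Complex Filter Topology Set MeasureTheory

theorem tendsto_rpow_gauss {T A : ℝ} (hT : 0 < T) :
    Tendsto (fun y : ℝ => y ^ A * Real.exp (-(y / T) ^ 2)) atTop (𝓝 0) := by
  have h1 := tendsto_rpow_mul_exp_neg_mul_atTop_nhds_zero A (1 / T ^ 2) (by positivity)
  refine squeeze_zero' ?_ ?_ h1
  · filter_upwards [eventually_ge_atTop 0] with y hy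
    positivity
  · filter_upwards [eventually_ge_atTop 1] with y hy
    have hy0 : 0 < y := by linarith
    refine mul_le_mul_of_nonneg_left (Real.exp_le_exp.2 ?_) (by positivity)
    rw [div_pow]
    have : y / T ^ 2 ≤ y ^ 2 / T ^ 2 := by
      apply div_le_div_of_nonneg_right _ (by positivity)
      nlinarith
    calc -(y ^ 2 / T ^ 2) ≤ -(y / T ^ 2) := by linarith
      _ = -(1 / T ^ 2) * y := by ring

theorem integrableOn_rpow_gauss {T A : ℝ} (hT : 0 < T) (hA : 0 ≤ A) {T0 : ℝ} (h0 : 0 ≤ T0) :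
    IntegrableOn (fun y : ℝ => y ^ A * Real.exp (-(y / T) ^ 2)) (Ioi T0) := by
  have h1 := integrableOn_rpow_mul_exp_neg_mul_sq (b := 1 / T ^ 2) (by positivity) (s := A)
    (by linarith)
  have h2 : (fun x : ℝ => x ^ A * Real.exp (-(1 / T ^ 2) * x ^ 2)) =
      (fun y : ℝ => y ^ A * Real.exp (-(y / T) ^ 2)) := by
    funext x
    congr 2
    rw [div_pow]
    ring
  rw [h2] at h1
  exact h1.mono_set (Ioi_subset_Ioi h0)

/-- contour shift -/
theorem shift {g : ℂ → ℂ} {σ₁ T0 A K : ℝ} (hσ : 0 < σ₁) (hT0 : 1 ≤ T0) (hA : 0 ≤ A) (hK : 0 ≤ K)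
    (hg : AnalyticOnNhd ℂ g Qd)
    (hb : ∀ s : ℂ, σ₁ ≤ s.re → s.re ≤ 2 → T0 ≤ s.im → ‖g s‖ ≤ K * s.im ^ A) (μ : ℝ) {σ0 : ℝ}
    (h1 : σ₁ ≤ σ0) (h2 : σ0 ≤ 2) :
    ∃ C : ℝ, ∀ T : ℝ, 1 ≤ T →
      ‖(∫ t in Ioi T0, g (σ0 + t * I) * exp (μ * (σ0 + t * I)) * exp (((t * I) / T) ^ 2)) -
        ∫ t in Ioi T0, g (2 + t * I) * exp (μ * (2 + t * I)) *
          exp ((((2 - σ0 : ℝ) + t * I) / T) ^ 2)‖ ≤ C := by
  set K' : ℝ := K * Real.exp (2 * |μ|) * Real.exp 4 with hK'
  have hK'0 : 0 ≤ K' := by positivity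
  refine ⟨K' * T0 ^ A * |2 - σ0|, fun T hT => ?_⟩
  have hTpos : 0 < T := by linarith
  have hTC : (T : ℂ) ≠ 0 := by exact_mod_cast hTpos.ne'
  set G : ℂ → ℂ := fun s => g s * exp (μ * s) * exp (((s - σ0) / T) ^ 2) with hG
  -- bound on the strip
  have hGb : ∀ x y : ℝ, σ0 ≤ x → x ≤ 2 → T0 ≤ y →
      ‖G (x + y * I)‖ ≤ K' * (y ^ A * Real.exp (-(y / T) ^ 2)) := by
    intro x y hx1 hx2 hy
    have hy0 : 0 < y := by linarith
    simp only [hG]
    rw [norm_mul, norm_mul]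
    have e1 : ‖g (x + y * I)‖ ≤ K * y ^ A := by
      have := hb (x + y * I) (by simpa using h1.trans hx1) (by simpa using hx2) (by simpa using hy)
      simpa using this
    have e2 : ‖exp ((μ : ℂ) * (x + y * I))‖ ≤ Real.exp (2 * |μ|) := by
      rw [Complex.norm_exp]
      apply Real.exp_le_exp.2
      have : ((μ : ℂ) * (x + y * I)).re = μ * x := by simp
      rw [this]
      have hx0 : 0 < x := by linarith
      calc μ * x ≤ |μ| * x := by gcongr; exact le_abs_self μ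
        _ ≤ |μ| * 2 := by gcongr
        _ = _ := by ring
    have e3 : ‖exp ((((x + y * I : ℂ) - σ0) / T) ^ 2)‖ ≤ Real.exp 4 * Real.exp (-(y / T) ^ 2) := by
      have h3 : (((x + y * I : ℂ) - σ0) / T) = ((x - σ0 : ℝ) : ℂ) / T + ((y / T : ℝ) : ℂ) * I := by
        push_cast
        field_simp
        ring
      rw [h3, norm_kernel, ← Real.exp_add]
      apply Real.exp_le_exp.2
      have h4 : ((x - σ0) / T) ^ 2 ≤ 4 := by
        rw [div_pow]
        have h5 : (x - σ0) ^ 2 ≤ 4 := by nlinarith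
        have h6 : (1 : ℝ) ≤ T ^ 2 := by nlinarith
        exact (div_le_self (by positivity) h6).trans h5
      linarith
    calc ‖g (x + y * I)‖ * ‖exp ((μ : ℂ) * (x + y * I))‖ *
          ‖exp ((((x + y * I : ℂ) - σ0) / T) ^ 2)‖
        ≤ (K * y ^ A) * Real.exp (2 * |μ|) * (Real.exp 4 * Real.exp (-(y / T) ^ 2)) := by
          gcongr
      _ = _ := by rw [hK']; ring
  have hGan : ∀ s ∈ Qd, DifferentiableAt ℂ G s := by
    intro s hs
    have := (hg s hs).differentiableAt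
    simp only [hG]
    fun_prop
  -- integrability
  have hint : ∀ x : ℝ, σ0 ≤ x → x ≤ 2 → IntegrableOn (fun y : ℝ => G (x + y * I)) (Ioi T0) := by
    intro x hx1 hx2
    refine Integrable.mono' ((integrableOn_rpow_gauss hTpos hA (by linarith)).const_mul K') ?_ ?_
    · refine ContinuousOn.aestronglyMeasurable ?_ measurableSet_Ioi
      intro y hy
      have hyQ : (x + y * I : ℂ) ∈ Qd := by
        refine ⟨by simpa using (by linarith : (0 : ℝ) < x), ?_⟩
        have : (0 : ℝ) < y := by linarith [mem_Ioi.1 hy]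
        simpa using this
      have h3 : ContinuousAt (fun y : ℝ => G (x + y * I)) y :=
        ContinuousAt.comp (f := fun y : ℝ => (x + y * I : ℂ)) (hGan _ hyQ).continuousAt
          (by fun_prop)
      exact h3.continuousWithinAt
    · filter_upwards [ae_restrict_mem measurableSet_Ioi] with y hy
      exact hGb x y hx1 hx2 (mem_Ioi.1 hy).le
  -- the rectangle
  have hrect : ∀ Y : ℝ, T0 < Y → (∫ x : ℝ in σ0..2, G (x + T0 * I)) -
      (∫ x : ℝ in σ0..2, G (x + Y * I)) + I • (∫ y : ℝ in T0..Y, G ((2 : ℝ) + y * I)) -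
      I • (∫ y : ℝ in T0..Y, G (σ0 + y * I)) = 0 := by
    intro Y hY
    have h3 := Complex.integral_boundary_rect_eq_zero_of_differentiableOn G (σ0 + T0 * I)
      ((2 : ℝ) + Y * I) ?_
    · simpa using h3
    · intro s hs
      rw [mem_reProdIm] at hs
      simp only [add_re, ofReal_re, mul_re, I_re, mul_zero, ofReal_im, I_im, mul_one, sub_self,
        add_zero, add_im, mul_im, zero_add] at hs
      rw [uIcc_of_le h2, uIcc_of_le hY.le] at hs
      have hsQ : s ∈ Qd := ⟨by linarith [hs.1.1], by linarith [hs.2.1]⟩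
      exact (hGan s hsQ).differentiableWithinAt
  have htop : Tendsto (fun Y : ℝ => ∫ x : ℝ in σ0..2, G (x + Y * I)) atTop (𝓝 0) := by
    have h3 : Tendsto (fun Y : ℝ => K' * (Y ^ A * Real.exp (-(Y / T) ^ 2)) * |2 - σ0|) atTop
        (𝓝 (K' * 0 * |2 - σ0|)) := ((tendsto_rpow_gauss hTpos).const_mul K').mul_const _
    rw [mul_zero, zero_mul] at h3
    rw [tendsto_zero_iff_norm_tendsto_zero]
    refine squeeze_zero' (Eventually.of_forall (fun _ => norm_nonneg _)) ?_ h3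
    filter_upwards [eventually_ge_atTop T0] with Y hY
    refine intervalIntegral.norm_integral_le_of_norm_le_const (fun x hx => ?_)
    rw [uIoc_of_le h2] at hx
    exact hGb x Y hx.1.le hx.2 hY
  have hside : ∀ x : ℝ, σ0 ≤ x → x ≤ 2 → Tendsto (fun Y : ℝ => ∫ y : ℝ in T0..Y, G (x + y * I))
      atTop (𝓝 (∫ y in Ioi T0, G (x + y * I))) := fun x hx1 hx2 =>
    intervalIntegral_tendsto_integral_Ioi T0 (hint x hx1 hx2) tendsto_id
  have hlim : Tendsto (fun Y : ℝ => (∫ x : ℝ in σ0..2, G (x + T0 * I)) -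
      (∫ x : ℝ in σ0..2, G (x + Y * I)) + I • (∫ y : ℝ in T0..Y, G ((2 : ℝ) + y * I)) -
      I • (∫ y : ℝ in T0..Y, G (σ0 + y * I))) atTop
      (𝓝 ((∫ x : ℝ in σ0..2, G (x + T0 * I)) - 0 + I • (∫ y in Ioi T0, G ((2 : ℝ) + y * I)) -
        I • (∫ y in Ioi T0, G (σ0 + y * I)))) :=
    (((tendsto_const_nhds.sub htop).add ((hside 2 h2 le_rfl).const_smul I)).sub
      ((hside σ0 le_rfl h2).const_smul I))
  have hzero : Tendsto (fun Y : ℝ => (∫ x : ℝ in σ0..2, G (x + T0 * I)) -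
      (∫ x : ℝ in σ0..2, G (x + Y * I)) + I • (∫ y : ℝ in T0..Y, G ((2 : ℝ) + y * I)) -
      I • (∫ y : ℝ in T0..Y, G (σ0 + y * I))) atTop (𝓝 0) := by
    refine tendsto_const_nhds.congr' ?_
    filter_upwards [eventually_gt_atTop T0] with Y hY
    exact (hrect Y hY).symm
  have heq := tendsto_nhds_unique hlim hzero
  have hJ : (∫ y in Ioi T0, G (σ0 + y * I)) - (∫ y in Ioi T0, G ((2 : ℝ) + y * I)) =
      -I * ∫ x : ℝ in σ0..2, G (x + T0 * I) := by
    rw [smul_eq_mul, smul_eq_mul] at heq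
    linear_combination I * heq + ((∫ y in Ioi T0, G (σ0 + y * I)) -
      (∫ y in Ioi T0, G ((2 : ℝ) + y * I))) * Complex.I_mul_I
  have e1 : (∫ t in Ioi T0, g (σ0 + t * I) * exp (μ * (σ0 + t * I)) * exp (((t * I) / T) ^ 2)) =
      ∫ y in Ioi T0, G (σ0 + y * I) := by
    congr 1
    funext t
    simp only [hG]
    congr 3
    ring
  have e2 : (∫ t in Ioi T0, g (2 + t * I) * exp (μ * (2 + t * I)) *
      exp ((((2 - σ0 : ℝ) + t * I) / T) ^ 2)) = ∫ y in Ioi T0, G ((2 : ℝ) + y * I) := by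
    congr 1
    funext t
    simp only [hG]
    push_cast
    congr 3
    ring
  rw [e1, e2, hJ, norm_mul, norm_neg, Complex.norm_I, one_mul]
  refine intervalIntegral.norm_integral_le_of_norm_le_const (fun x hx => ?_)
  rw [uIoc_of_le h2] at hx
  refine (hGb x T0 hx.1.le hx.2 le_rfl).trans ?_
  refine mul_le_mul_of_nonneg_left ?_ hK'0
  have : Real.exp (-(T0 / T) ^ 2) ≤ 1 := Real.exp_le_one_iff.2 (by have := sq_nonneg (T0 / T); linarith)
  exact mul_le_of_le_one_right (by positivity) this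

end Pool.Agent.SelCR
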